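import Mathlib
import Pool.Graph.R_pool_sql_team_seeded_63374d34.N575.PCT.Model

/-!
# Decision trees with few rounds for shortest paths

In a round many tests are made simultaneously; the tests of a round may depend on the outcomes of
the previous rounds, but not on each other.
-/

set_option autoImplicit false

namespace Pool.Agent.H692.FR

open Filter Topology
open Pool.Agent.N575.LDT (Edge Tri Wts wt pot Shallow pot_continuous shallow_residual tendsto_line
  lin_add_smul wt_add_smul sign_mul_pos)
open Pool.Agent.N575.PCT (Regular sign_diff fderiv_sum)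

variable {n : ℕ}

/-- Decision trees with outputs in `β`. A node asks for the value of a shallow function of the
weights (`free`), or it is a round: simultaneously, any `m` edges from the first to the third layer
are compared with paths, and the signs of any `q` regular functions of the weights are determined.
The tree may be infinite, but each of its branches is finite. -/
inductive RTree (n : ℕ) (β : Type) : Type
  | leaf (b : β) : RTree n β
  | free (f : Wts n → ℤ) (hf : Shallow f) (next : ℤ → RTree n β) : RTree n β
  | round (m q : ℕ) (s : Fin m → Tri n) (g : Fin q → Wts n → ℝ) (hg : ∀ i, Regular (g i))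
      (next : (Fin m → SignType) → (Fin q → SignType) → RTree n β) : RTree n β

/-- the output -/
noncomputable def RTree.run {β : Type} : RTree n β → Wts n → β
  | .leaf b, _ => b
  | .free f _ next, w => (next (f w)).run w
  | .round _ _ s g _ next, w =>
    (next (fun i => SignType.sign (wt w (s i))) fun i => SignType.sign (g i w)).run w

/-- the number of the rounds for the weights `w` -/
noncomputable def RTree.rounds {β : Type} : RTree n β → Wts n → ℕ
  | .leaf _, _ => 0
  | .free f _ next, w => (next (f w)).rounds w
  | .round _ _ s g _ next, w =>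
    (next (fun i => SignType.sign (wt w (s i))) fun i => SignType.sign (g i w)).rounds w + 1

/-- the number of the comparisons of edges with paths which are made for the weights `w`, in all
rounds together -/
noncomputable def RTree.comparisons {β : Type} : RTree n β → Wts n → ℕ
  | .leaf _, _ => 0
  | .free f _ next, w => (next (f w)).comparisons w
  | .round m _ s g _ next, w =>
    (next (fun i => SignType.sign (wt w (s i))) fun i => SignType.sign (g i w)).comparisons w + m

/-- the number of the tests of regular functions which are made for the weights `w`, in all rounds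
together -/
noncomputable def RTree.tests {β : Type} : RTree n β → Wts n → ℕ
  | .leaf _, _ => 0
  | .free f _ next, w => (next (f w)).tests w
  | .round _ q s g _ next, w =>
    (next (fun i => SignType.sign (wt w (s i))) fun i => SignType.sign (g i w)).tests w + q

/-! ### the reduced tree near a potential -/

/-- the value of a linear form -/
def dot (L : Edge n → ℝ) (w : Wts n) : ℝ := ∑ e, L e * w e

/-- the edge `e` lies on the triangle `s` -/
def On (e : Edge n) (s : Tri n) : Prop :=
  e = (0, s.1, s.2.1) ∨ e = (1, s.2.1, s.2.2) ∨ e = (2, s.1, s.2.2)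

open Classical in
/-- the edges of a triangle -/
noncomputable def ind (s : Tri n) : Edge n → ℝ := fun e => if On e s then 1 else 0

/-- `L` is not zero and not a multiple of the weight of a triangle -/
def NS (L : Edge n → ℝ) : Prop := L ≠ 0 ∧ ∀ (s : Tri n) (c : ℝ), L ≠ c • ind s

theorem dot_ind (f : Tri n) (y : Wts n) : dot (ind f) y = wt y f := by
  classical
  unfold dot ind wt
  have h1 : ∀ e : Edge n, (if On e f then (1 : ℝ) else 0) * y e =
      (if e = (0, f.1, f.2.1) then y e else 0) + (if e = (1, f.2.1, f.2.2) then y e else 0) +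
      (if e = (2, f.1, f.2.2) then y e else 0) := by
    intro e
    unfold On
    by_cases h0 : e = (0, f.1, f.2.1)
    · subst h0
      simp
    · by_cases h1 : e = (1, f.2.1, f.2.2)
      · subst h1
        simp
      · by_cases h2 : e = (2, f.1, f.2.2)
        · subst h2
          simp
        · simp [h0, h1, h2]
  rw [Finset.sum_congr rfl fun e _ => h1 e, Finset.sum_add_distrib, Finset.sum_add_distrib]
  simp

theorem ind_ne (s : Tri n) : ind s ≠ 0 := by
  intro h
  have := congrFun h (0, s.1, s.2.1)
  unfold ind On at this
  simp at this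

theorem not_NS_ind (s : Tri n) : ¬ NS (ind s) := fun h => h.2 s 1 (one_smul _ _).symm

/-- trees of linear tests; tests of the zero form have a fixed outcome -/
inductive LT (n : ℕ) : Type
  | leaf (b : Bool) : LT n
  | round (m : ℕ) (L : Fin m → Edge n → ℝ) (σ : Fin m → SignType)
      (next : (Fin m → SignType) → LT n) : LT n

open Classical in
/-- the outcomes of the tests of a round -/
noncomputable def ans {m : ℕ} (L : Fin m → Edge n → ℝ) (σ : Fin m → SignType) (u : Wts n) :
    Fin m → SignType :=
  fun i => if L i = 0 then σ i else SignType.sign (dot (L i) u)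

noncomputable def LT.run : LT n → Wts n → Bool
  | .leaf b, _ => b
  | .round _ L σ next, u => (next (ans L σ u)).run u

noncomputable def LT.rounds : LT n → Wts n → ℕ
  | .leaf _, _ => 0
  | .round _ L σ next, u => (next (ans L σ u)).rounds u + 1

/-- the number of all tests -/
noncomputable def LT.tests : LT n → Wts n → ℕ
  | .leaf _, _ => 0
  | .round m L σ next, u => (next (ans L σ u)).tests u + m

open Classical in
/-- the number of the tests of forms which are not multiples of the weight of a triangle -/
noncomputable def LT.nst : LT n → Wts n → ℕ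
  | .leaf _, _ => 0
  | .round _ L σ next, u => (next (ans L σ u)).nst u +
    (Finset.univ.filter fun i => NS (L i)).card

/-- no nonzero linear form which is tested vanishes -/
def LT.Gen : LT n → Wts n → Prop
  | .leaf _, _ => True
  | .round _ L σ next, u => (∀ i, L i ≠ 0 → dot (L i) u ≠ 0) ∧ (next (ans L σ u)).Gen u

/-- the derivative as a vector of coefficients -/
noncomputable def grad (f : Wts n → ℝ) (p : Wts n) : Edge n → ℝ :=
  fun e => fderiv ℝ f p fun j => if e = j then 1 else 0

open Classical in
/-- the reduction near a potential -/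
noncomputable def red {β : Type} (φ : β → Bool) : RTree n β → (Fin 3 × Fin n → ℝ) → LT n
  | .leaf b, _ => .leaf (φ b)
  | .free f _ next, x => red φ (next (f (pot x))) x
  | .round m q s g _ next, x =>
    .round (m + q)
      (Fin.append (fun i => ind (s i)) fun i => if g i (pot x) = 0 then grad (g i) (pot x) else 0)
      (Fin.append (fun _ => 0) fun i => SignType.sign (g i (pot x)))
      fun a => red φ (next (fun i => a (Fin.castAdd q i)) fun i => a (Fin.natAdd m i)) x

theorem dot_grad (f : Wts n → ℝ) (p u : Wts n) : dot (grad f p) u = fderiv ℝ f p u :=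
  fderiv_sum f p u

/-- the reduced tree describes the tree near the potential -/
def Good {β : Type} (φ : β → Bool) (t : RTree n β) (x : Fin 3 × Fin n → ℝ) : Prop :=
  ∀ u : Wts n, (red φ t x).Gen u → ∀ᶠ ε in 𝓝[>] (0 : ℝ),
    φ (t.run (pot x + ε • u)) = (red φ t x).run u ∧
      (red φ t x).rounds u = t.rounds (pot x + ε • u) ∧
      (red φ t x).tests u = t.comparisons (pot x + ε • u) + t.tests (pot x + ε • u) ∧
      (red φ t x).nst u ≤ t.tests (pot x + ε • u)

theorem card_ns_le {m q : ℕ} (s : Fin m → Tri n) (L : Fin q → Edge n → ℝ)
    [DecidablePred fun i : Fin (m + q) => NS (Fin.append (fun i => ind (s i)) L i)] :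
    (Finset.univ.filter fun i : Fin (m + q) => NS (Fin.append (fun i => ind (s i)) L i)).card ≤
      q := by
  classical
  calc (Finset.univ.filter fun i : Fin (m + q) =>
        NS (Fin.append (fun i => ind (s i)) L i)).card
      ≤ ((Finset.univ : Finset (Fin q)).image fun i => Fin.natAdd m i).card := by
        refine Finset.card_le_card fun i hi => ?_
        rw [Finset.mem_filter] at hi
        rw [Finset.mem_image]
        induction i using Fin.addCases with
        | left i =>
          rw [Fin.append_left] at hi
          exact absurd hi.2 (not_NS_ind _)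
        | right i => exact ⟨i, Finset.mem_univ _, rfl⟩
    _ ≤ (Finset.univ : Finset (Fin q)).card := Finset.card_image_le
    _ = q := by rw [Finset.card_univ, Fintype.card_fin]

theorem good {β : Type} (φ : β → Bool) (t : RTree n β) :
    ∀ᶠ x in residual (Fin 3 × Fin n → ℝ), Good φ t x := by
  classical
  induction t with
  | leaf b =>
    exact Eventually.of_forall fun x u _ =>
      Eventually.of_forall fun ε => ⟨rfl, rfl, rfl, le_rfl⟩
  | free f hf next ih =>
    filter_upwards [shallow_residual hf, eventually_countable_forall.2 ih] with x h1 h2 u hu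
    filter_upwards [h2 (f (pot x)) u hu, (tendsto_line (pot x) u).eventually h1]
      with ε h4 h5
    unfold RTree.run RTree.rounds RTree.comparisons RTree.tests
    rw [h5]
    exact h4
  | round m q s g hg next ih =>
    have ih' : ∀ p : (Fin m → SignType) × (Fin q → SignType),
        ∀ᶠ x in residual (Fin 3 × Fin n → ℝ), Good φ (next p.1 p.2) x := fun p => ih p.1 p.2
    filter_upwards [eventually_countable_forall.2 hg, eventually_countable_forall.2 ih']
      with x h1 h2 u hu
    obtain ⟨hu1, hu2⟩ := hu
    set L₀ : Fin q → Edge n → ℝ := fun i => if g i (pot x) = 0 then grad (g i) (pot x) else 0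
      with hL₀
    set σ₀ : Fin q → SignType := fun i => SignType.sign (g i (pot x)) with hσ₀
    set L : Fin (m + q) → Edge n → ℝ := Fin.append (fun i => ind (s i)) L₀ with hL
    set σ : Fin (m + q) → SignType := Fin.append (fun _ => 0) σ₀ with hσ
    have hs : ∀ᶠ ε in 𝓝[>] (0 : ℝ), ∀ i, SignType.sign (wt (pot x + ε • u) (s i)) =
        ans L σ u (Fin.castAdd q i) := by
      filter_upwards [self_mem_nhdsWithin] with ε hε i
      rw [wt_add_smul, sign_mul_pos hε]
      unfold ans
      rw [hL, Fin.append_left, if_neg (ind_ne _), dot_ind]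
    have h3 : ∀ᶠ ε in 𝓝[>] (0 : ℝ), ∀ i, SignType.sign (g i (pot x + ε • u)) =
        ans L σ u (Fin.natAdd m i) := by
      refine eventually_all.2 fun i => ?_
      have eL : L (Fin.natAdd m i) = L₀ i := by rw [hL, Fin.append_right]
      have eσ : σ (Fin.natAdd m i) = σ₀ i := by rw [hσ, Fin.append_right]
      by_cases h0 : g i (pot x) = 0
      · have e1 : L₀ i = grad (g i) (pot x) := by simp only [hL₀]; rw [if_pos h0]
        have h4 : fderiv ℝ (g i) (pot x) ≠ 0 := by
          rcases (h1 i).2 with h | h
          · exact absurd h0 h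
          · exact h
        have h5 : L₀ i ≠ 0 := by
          rw [e1]
          intro h6
          refine h4 (ContinuousLinearMap.ext fun v => ?_)
          rw [← dot_grad, h6]
          unfold dot
          simp
        have h6 := hu1 (Fin.natAdd m i) (by rw [eL]; exact h5)
        rw [eL, e1, dot_grad] at h6
        filter_upwards [sign_diff (h1 i).1 h0 h6] with ε h7
        unfold ans
        rw [eL, if_neg h5, h7, e1, dot_grad]
      · have e1 : L₀ i = 0 := by simp only [hL₀]; rw [if_neg h0]
        have h7 : ∀ᶠ w in 𝓝 (pot x), SignType.sign (g i w) = SignType.sign (g i (pot x)) := by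
          have hc := (h1 i).1.continuousAt
          rcases lt_or_gt_of_ne h0 with h | h
          · filter_upwards [hc.eventually (gt_mem_nhds h)] with w hw
            rw [sign_neg hw, sign_neg h]
          · filter_upwards [hc.eventually (lt_mem_nhds h)] with w hw
            rw [sign_pos hw, sign_pos h]
        filter_upwards [(tendsto_line (pot x) u).eventually h7] with ε h8
        unfold ans
        rw [eL, if_pos e1, h8, eσ]
    have h2' := h2 (fun i => ans L σ u (Fin.castAdd q i), fun i => ans L σ u (Fin.natAdd m i))
    filter_upwards [h2' u hu2, hs, h3] with ε h4 h5 h5'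
    have h6 : (fun i => SignType.sign (wt (pot x + ε • u) (s i))) =
        fun i => ans L σ u (Fin.castAdd q i) := funext h5
    have h6' : (fun i => SignType.sign (g i (pot x + ε • u))) =
        fun i => ans L σ u (Fin.natAdd m i) := funext h5'
    have e2 : (red φ (.round m q s g hg next) x) = .round (m + q) L σ
        fun a => red φ (next (fun i => a (Fin.castAdd q i)) fun i => a (Fin.natAdd m i)) x := rfl
    rw [e2]
    unfold RTree.run RTree.rounds RTree.comparisons RTree.tests LT.run LT.rounds LT.tests LT.nst
    rw [h6, h6']
    refine ⟨h4.1, by rw [h4.2.1], by rw [h4.2.2.1]; ring, ?_⟩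
    exact Nat.add_le_add h4.2.2.2 (card_ns_le s L₀)

/-! ### generic points -/

theorem dot_continuous (L : Edge n → ℝ) : Continuous (dot L) := by
  unfold dot
  fun_prop

theorem dot_add_smul (L : Edge n → ℝ) (p u : Wts n) (ε : ℝ) :
    dot L (p + ε • u) = dot L p + ε * dot L u := lin_add_smul L p u ε

theorem exists_dot_ne {L : Edge n → ℝ} (hL : L ≠ 0) : ∃ v : Wts n, dot L v ≠ 0 := by
  by_contra! h
  apply hL
  funext e
  have h1 := h (Pi.single e 1)
  unfold dot at h1
  rw [Finset.sum_eq_single e] at h1
  · simpa using h1
  · intro b _ hb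
    rw [Pi.single_eq_of_ne hb, mul_zero]
  · intro h2
    exact absurd (Finset.mem_univ _) h2

/-- moving a little in a direction makes nonzero forms nonzero -/
theorem eventually_dot_ne (L : Edge n → ℝ) (p u : Wts n) (h : dot L p ≠ 0 ∨ dot L u ≠ 0) :
    ∀ᶠ ε in 𝓝[>] (0 : ℝ), dot L (p + ε • u) ≠ 0 := by
  by_cases hp : dot L p = 0
  · have hu : dot L u ≠ 0 := h.resolve_left (fun h => h hp)
    filter_upwards [self_mem_nhdsWithin] with ε hε
    rw [dot_add_smul, hp, zero_add]
    exact mul_ne_zero (ne_of_gt hε) hu
  · have h1 := (dot_continuous L).continuousAt.eventually (IsOpen.mem_nhds isOpen_ne hp)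
    exact (tendsto_line p u).eventually h1

/-- a vector at which finitely many nonzero forms do not vanish, near a given one -/
theorem exists_generic {m : ℕ} (L : Fin m → Edge n → ℝ) {U : Set (Wts n)} (hU : IsOpen U)
    {p : Wts n} (hp : p ∈ U) : ∃ u ∈ U, ∀ i, L i ≠ 0 → dot (L i) u ≠ 0 := by
  classical
  have key : ∀ s : Finset (Fin m), ∃ u ∈ U, ∀ i ∈ s, L i ≠ 0 → dot (L i) u ≠ 0 := by
    intro s
    induction s using Finset.induction_on with
    | empty => exact ⟨p, hp, fun i hi => absurd hi (Finset.notMem_empty _)⟩
    | insert i s _ ih =>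
      obtain ⟨u, hu, h1⟩ := ih
      by_cases h0 : L i = 0
      · refine ⟨u, hu, fun j hj hj0 => ?_⟩
        rcases Finset.mem_insert.1 hj with rfl | hj
        · exact absurd h0 hj0
        · exact h1 j hj hj0
      · obtain ⟨v, hv⟩ := exists_dot_ne h0
        have h2 : ∀ᶠ ε in 𝓝[>] (0 : ℝ), u + ε • v ∈ U :=
          (tendsto_line u v).eventually (hU.mem_nhds hu)
        have h3 : ∀ᶠ ε in 𝓝[>] (0 : ℝ), ∀ j : Fin m, j ∈ s → L j ≠ 0 →
            dot (L j) (u + ε • v) ≠ 0 := by
          refine eventually_all.2 fun j => ?_
          by_cases hj : j ∈ s ∧ L j ≠ 0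
          · filter_upwards [eventually_dot_ne (L j) u v (Or.inl (h1 j hj.1 hj.2))] with ε h _ _
            exact h
          · exact Eventually.of_forall fun ε h4 h5 => absurd ⟨h4, h5⟩ hj
        have h4 := eventually_dot_ne (L i) u v (Or.inr hv)
        obtain ⟨ε, ⟨h5, h6⟩, h7⟩ := ((h2.and h3).and h4).exists
        refine ⟨u + ε • v, h5, fun j hj hj0 => ?_⟩
        rcases Finset.mem_insert.1 hj with rfl | hj
        · exact h7
        · exact h6 j hj hj0
  obtain ⟨u, hu, h⟩ := key Finset.univ
  exact ⟨u, hu, fun i hi => h i (Finset.mem_univ _) hi⟩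

/-- the weights for which the nonzero forms have the same signs as for `u` -/
def cell {m : ℕ} (L : Fin m → Edge n → ℝ) (σ : Fin m → SignType) (u : Wts n) : Set (Wts n) :=
  {v | ∀ i, L i ≠ 0 → 0 < dot (L i) u * dot (L i) v}

theorem cell_open {m : ℕ} (L : Fin m → Edge n → ℝ) (σ : Fin m → SignType) (u : Wts n) :
    IsOpen (cell L σ u) := by
  have h : cell L σ u = ⋂ i, {v | L i ≠ 0 → 0 < dot (L i) u * dot (L i) v} := by
    ext v
    simp [cell]
  rw [h]
  refine isOpen_iInter_of_finite fun i => ?_
  by_cases h0 : L i = 0
  · have : {v : Wts n | L i ≠ 0 → 0 < dot (L i) u * dot (L i) v} = Set.univ := by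
      ext v
      simp [h0]
    rw [this]
    exact isOpen_univ
  · have : {v : Wts n | L i ≠ 0 → 0 < dot (L i) u * dot (L i) v} =
        {v | 0 < dot (L i) u * dot (L i) v} := by
      ext v
      simp [h0]
    rw [this]
    exact isOpen_lt continuous_const (continuous_const.mul (dot_continuous _))

theorem mem_cell {m : ℕ} {L : Fin m → Edge n → ℝ} {σ : Fin m → SignType} {u : Wts n}
    (h : ∀ i, L i ≠ 0 → dot (L i) u ≠ 0) : u ∈ cell L σ u :=
  fun i hi => mul_self_pos.2 (h i hi)

theorem ans_cell {m : ℕ} {L : Fin m → Edge n → ℝ} {σ : Fin m → SignType} {u v : Wts n}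
    (h : v ∈ cell L σ u) : ans L σ v = ans L σ u := by
  funext i
  unfold ans
  split_ifs with h0
  · rfl
  · have h1 := h i h0
    rcases lt_trichotomy (dot (L i) u) 0 with h2 | h2 | h2
    · have h3 : dot (L i) v < 0 := by
        by_contra hc
        push Not at hc
        nlinarith
      rw [sign_neg h2, sign_neg h3]
    · rw [h2, zero_mul] at h1
      exact absurd h1 (lt_irrefl _)
    · have h3 : 0 < dot (L i) v := by
        by_contra hc
        push Not at hc
        nlinarith
      rw [sign_pos h2, sign_pos h3]

theorem ne_of_cell {m : ℕ} {L : Fin m → Edge n → ℝ} {σ : Fin m → SignType} {u v : Wts n}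
    (h : v ∈ cell L σ u) (i : Fin m) (hi : L i ≠ 0) : dot (L i) v ≠ 0 := by
  intro h0
  have := h i hi
  rw [h0, mul_zero] at this
  exact lt_irrefl _ this

theorem exists_gen (R : LT n) : ∀ {U : Set (Wts n)}, IsOpen U → U.Nonempty →
    ∃ u ∈ U, R.Gen u := by
  induction R with
  | leaf b => exact fun _ ⟨u, hu⟩ => ⟨u, hu, trivial⟩
  | round m L σ next ih =>
    intro U hU hne
    obtain ⟨p, hp⟩ := hne
    obtain ⟨u, hu, h1⟩ := exists_generic L hU hp
    obtain ⟨v, hv, h2⟩ := ih (ans L σ u) (U := U ∩ cell L σ u) (hU.inter (cell_open L σ u))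
      ⟨u, hu, mem_cell h1⟩
    refine ⟨v, hv.1, fun i hi => ne_of_cell hv.2 i hi, ?_⟩
    rw [ans_cell hv.2]
    exact h2

end Pool.Agent.H692.FR
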