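import Mathlib
import Pool.Agent.H692.FR.Model

/-!
# Random labels
-/

set_option autoImplicit false

namespace Pool.Agent.H692.FR

open Finset
open Pool.Agent.N575.LDT (Edge Tri Wts wt)

variable {n : ℕ}

/-- one coordinate of a random function may be chosen again -/
theorem resample {ι α : Type} [Fintype ι] [DecidableEq ι] [DecidableEq α] (S : ι → Finset α)
    (v : ι) (f : (ι → α) → ℝ) :
    ((S v).card : ℝ) * ∑ ω ∈ Fintype.piFinset S, f ω =
      ∑ ω ∈ Fintype.piFinset S, ∑ z ∈ S v, f (Function.update ω v z) := by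
  rw [← sum_product', mul_sum]
  have h1 : ∑ ω ∈ Fintype.piFinset S, ((S v).card : ℝ) * f ω =
      ∑ p ∈ Fintype.piFinset S ×ˢ S v, f p.1 := by
    rw [sum_product]
    refine sum_congr rfl fun ω _ => ?_
    simp
  rw [h1]
  refine sum_bij' (fun p _ => (Function.update p.1 v p.2, p.1 v))
    (fun p _ => (Function.update p.1 v p.2, p.1 v)) ?_ ?_ ?_ ?_ ?_
  · intro p hp
    rw [mem_product, Fintype.mem_piFinset] at hp ⊢
    refine ⟨fun i => ?_, hp.1 v⟩
    by_cases h : i = v
    · subst h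
      simp [hp.2]
    · simp [h, hp.1 i]
  · intro p hp
    rw [mem_product, Fintype.mem_piFinset] at hp ⊢
    refine ⟨fun i => ?_, hp.1 v⟩
    by_cases h : i = v
    · subst h
      simp [hp.2]
    · simp [h, hp.1 i]
  · intro p _
    simp
  · intro p _
    simp
  · intro p _
    simp

/-- the labels of a vertex: `0, …, 2 x - 1` in the second part and `0, …, x - 1` in the others -/
noncomputable def rng (n x : ℕ) (v : Fin 3 × Fin n) : Finset ℝ :=
  (range (if v.1 = 1 then 2 * x else x)).map Nat.castEmbedding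

theorem card_rng (x : ℕ) (v : Fin 3 × Fin n) :
    (rng n x v).card = if v.1 = 1 then 2 * x else x := by
  unfold rng
  rw [card_map, card_range]

theorem card_rng_one (x : ℕ) (j : Fin n) : ((rng n x (1, j)).card : ℝ) = 2 * x := by
  rw [card_rng]
  simp

theorem le_card_rng (x : ℕ) (v : Fin 3 × Fin n) : x ≤ (rng n x v).card := by
  rw [card_rng]
  split_ifs <;> omega

/-- the weights given by labels -/
def qw (ω : Fin 3 × Fin n → ℝ) : Wts n := fun e =>
  if e.1 = 0 then ω (0, e.2.1) ^ 2 - 2 * ω (0, e.2.1) * ω (1, e.2.2)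
  else if e.1 = 1 then ω (1, e.2.1) ^ 2 - 2 * ω (1, e.2.1) * ω (2, e.2.2)
  else ω (2, e.2.2) ^ 2 + 2 * ω (0, e.2.1) * ω (2, e.2.2)

/-- the label of a triangle -/
def lab (ω : Fin 3 × Fin n → ℝ) (s : Tri n) : ℝ := ω (0, s.1) + ω (2, s.2.2) - ω (1, s.2.1)

theorem wt_qw (ω : Fin 3 × Fin n → ℝ) (s : Tri n) : wt (qw ω) s = lab ω s ^ 2 := by
  unfold wt qw lab
  simp only [if_pos, if_neg, one_ne_zero, not_false_eq_true]
  rw [if_neg (by decide), if_neg (by decide)]
  ring

theorem wt_qw_eq_zero (ω : Fin 3 × Fin n → ℝ) (s : Tri n) : wt (qw ω) s = 0 ↔ lab ω s = 0 := by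
  rw [wt_qw]
  exact sq_eq_zero_iff

/-- all labels -/
noncomputable def Om (n x : ℕ) : Finset (Fin 3 × Fin n → ℝ) := Fintype.piFinset (rng n x)

theorem Om_nonempty {x : ℕ} (hx : 0 < x) : (Om n x).Nonempty := by
  unfold Om
  rw [Fintype.piFinset_nonempty]
  intro v
  rw [← card_pos]
  exact lt_of_lt_of_le hx (le_card_rng x v)

theorem mem_rng_sum {x : ℕ} {a b : ℝ} {i k j : Fin n} (ha : a ∈ rng n x (0, i))
    (hb : b ∈ rng n x (2, k)) : a + b ∈ rng n x (1, j) := by
  unfold rng at ha hb ⊢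
  simp only [mem_map, mem_range, Nat.castEmbedding_apply] at ha hb ⊢
  rw [if_neg (by decide)] at ha
  rw [if_neg (by decide)] at hb
  rw [if_pos trivial]
  obtain ⟨p, hp, rfl⟩ := ha
  obtain ⟨q, hq, rfl⟩ := hb
  exact ⟨p + q, by omega, by push_cast; ring⟩

/-- a triangle is tight with probability `1 / (2 x)` -/
theorem prob_tight (x : ℕ) (s : Tri n) :
    (2 * x : ℝ) * ∑ ω ∈ Om n x, (if lab ω s = 0 then (1 : ℝ) else 0) = (Om n x).card := by
  classical
  have h1 := resample (rng n x) (1, s.2.1) fun ω => if lab ω s = 0 then (1 : ℝ) else 0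
  rw [card_rng_one] at h1
  unfold Om
  rw [h1]
  have h2 : ∀ ω ∈ Fintype.piFinset (rng n x), ∑ z ∈ rng n x (1, s.2.1),
      (if lab (Function.update ω (1, s.2.1) z) s = 0 then (1 : ℝ) else 0) = 1 := by
    intro ω hω
    rw [Fintype.mem_piFinset] at hω
    have h3 : ∀ z, (lab (Function.update ω (1, s.2.1) z) s = 0 ↔
        z = ω (0, s.1) + ω (2, s.2.2)) := by
      intro z
      unfold lab
      rw [Function.update_of_ne (by simp), Function.update_of_ne (by simp), Function.update_self]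
      constructor
      · intro h; linarith
      · intro h; linarith
    simp only [h3]
    rw [sum_ite_eq' (rng n x (1, s.2.1)) (ω (0, s.1) + ω (2, s.2.2)) fun _ => (1 : ℝ),
      if_pos (mem_rng_sum (hω _) (hω _))]
  rw [sum_congr rfl h2, sum_const, nsmul_eq_mul, mul_one]

/-- the two triangles are both tight with probability at most `1 / (2 x ^ 2)` -/
theorem prob_pair (x : ℕ) {s s' : Tri n} (hne : s ≠ s') :
    (2 * x ^ 2 : ℝ) * ∑ ω ∈ Om n x, (if lab ω s = 0 ∧ lab ω s' = 0 then (1 : ℝ) else 0) ≤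
      (Om n x).card := by
  classical
  have hv : ∃ v : Fin 3 × Fin n, ((v = (0, s'.1) ∧ s'.1 ≠ s.1) ∨ (v = (1, s'.2.1) ∧ s'.2.1 ≠ s.2.1)
      ∨ (v = (2, s'.2.2) ∧ s'.2.2 ≠ s.2.2)) := by
    by_contra! h
    refine hne ?_
    have h1 := (h (0, s'.1)).1 rfl
    have h2 := (h (1, s'.2.1)).2.1 rfl
    have h3 := (h (2, s'.2.2)).2.2 rfl
    exact Prod.ext h1.symm (Prod.ext h2.symm h3.symm)
  obtain ⟨v, hv⟩ := hv
  set F : (Fin 3 × Fin n → ℝ) → ℝ := fun ω => if lab ω s = 0 ∧ lab ω s' = 0 then (1 : ℝ) else 0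
    with hF
  have h1 := resample (rng n x) (1, s.2.1) F
  have h2 := resample (rng n x) v fun ω => ∑ z ∈ rng n x (1, s.2.1),
    F (Function.update ω (1, s.2.1) z)
  rw [← h1, card_rng_one] at h2
  have h3 : ∀ ω ∈ Fintype.piFinset (rng n x), ∑ z ∈ rng n x v, ∑ z' ∈ rng n x (1, s.2.1),
      F (Function.update (Function.update ω v z) (1, s.2.1) z') ≤ 1 := by
    intro ω _
    rw [← sum_product', hF, sum_boole]
    have h4 : #{p ∈ rng n x v ×ˢ rng n x (1, s.2.1) |
        lab (Function.update (Function.update ω v p.1) (1, s.2.1) p.2) s = 0 ∧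
        lab (Function.update (Function.update ω v p.1) (1, s.2.1) p.2) s' = 0} ≤ 1 := by
      rw [card_le_one]
      rintro ⟨z, y⟩ ha ⟨z', y'⟩ hb
      simp only [mem_filter, mem_product] at ha hb
      obtain ⟨-, ha1, ha2⟩ := ha
      obtain ⟨-, hb1, hb2⟩ := hb
      unfold lab at ha1 ha2 hb1 hb2
      rcases hv with ⟨rfl, hne'⟩ | ⟨rfl, hne'⟩ | ⟨rfl, hne'⟩
      · simp [Function.update_apply, hne', hne'.symm] at ha1 ha2 hb1 hb2
        have e1 : y = y' := by linarith
        subst e1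
        have e2 : z = z' := by
          split_ifs at ha2 hb2 <;> linarith
        rw [e2]
      · simp [Function.update_apply, hne', hne'.symm] at ha1 ha2 hb1 hb2
        have e1 : y = y' := by linarith
        subst e1
        have e2 : z = z' := by linarith
        rw [e2]
      · simp [Function.update_apply, hne', hne'.symm] at ha1 ha2 hb1 hb2
        have e1 : y = y' := by linarith
        subst e1
        have e2 : z = z' := by
          split_ifs at ha2 hb2 <;> linarith
        rw [e2]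
    exact_mod_cast h4
  have h4 : ((rng n x v).card : ℝ) * ((2 * x : ℝ) * ∑ ω ∈ Fintype.piFinset (rng n x), F ω) ≤
      (Fintype.piFinset (rng n x)).card := by
    rw [h2]
    refine (sum_le_sum h3).trans ?_
    rw [sum_const, nsmul_eq_mul, mul_one]
  have h5 : (x : ℝ) ≤ (rng n x v).card := by exact_mod_cast le_card_rng x v
  have h6 : 0 ≤ ∑ ω ∈ Fintype.piFinset (rng n x), F ω := by
    refine sum_nonneg fun ω _ => ?_
    rw [hF]
    beta_reduce
    split_ifs <;> norm_num
  unfold Om
  refine le_trans ?_ h4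
  have h7 : (0 : ℝ) ≤ 2 * x * ∑ ω ∈ Fintype.piFinset (rng n x), F ω := by positivity
  nlinarith [mul_le_mul_of_nonneg_right h5 h7]

end Pool.Agent.H692.FR
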