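import Mathlib
import Pool.Agent.H692.FR.Label

/-!
# Linear forms which are determined by the tight triangles
-/

set_option autoImplicit false

namespace Pool.Agent.H692.FR

open Finset Filter Topology
open Pool.Agent.N575.LDT (Edge Tri Wts wt tendsto_line)

variable {n : ℕ}

/-- `L` vanishes for all weights for which the tight triangles have weight zero -/
def Bad (ω : Fin 3 × Fin n → ℝ) (L : Edge n → ℝ) : Prop :=
  ∀ y : Wts n, (∀ s, lab ω s = 0 → wt y s = 0) → dot L y = 0

/-- the first vertex of an edge -/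
def e1 (e : Edge n) : Fin 3 × Fin n := if e.1 = 1 then (1, e.2.1) else (0, e.2.1)

/-- the second vertex of an edge -/
def e2 (e : Edge n) : Fin 3 × Fin n := if e.1 = 0 then (1, e.2.2) else (2, e.2.2)

theorem e1_lt (e : Edge n) : (e1 e).1 < (e2 e).1 := by
  obtain ⟨c, i, j⟩ := e
  fin_cases c <;> simp [e1, e2]

theorem e_inj {e e' : Edge n} (h1 : e1 e = e1 e') (h2 : e2 e = e2 e') : e = e' := by
  obtain ⟨c, i, j⟩ := e
  obtain ⟨c', i', j'⟩ := e'
  fin_cases c <;> fin_cases c' <;> simp_all [e1, e2]

/-- the coefficient of the edge between two vertices -/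
noncomputable def co (L : Edge n → ℝ) (v p : Fin 3 × Fin n) : ℝ :=
  ∑ e, L e * ((if e1 e = v ∧ e2 e = p then 1 else 0) + if e2 e = v ∧ e1 e = p then 1 else 0)

theorem co_symm (L : Edge n → ℝ) (v p : Fin 3 × Fin n) : co L v p = co L p v := by
  unfold co
  refine sum_congr rfl fun e _ => ?_
  rw [add_comm]
  congr 2
  · exact if_congr and_comm rfl rfl
  · exact if_congr and_comm rfl rfl

theorem co_e (L : Edge n → ℝ) (e : Edge n) : co L (e1 e) (e2 e) = L e := by
  classical
  unfold co
  rw [sum_eq_single e]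
  · have h : ¬ (e2 e = e1 e ∧ e1 e = e2 e) := by
      intro h
      have := e1_lt e
      rw [h.2] at this
      exact lt_irrefl _ this
    rw [if_pos ⟨rfl, rfl⟩, if_neg h]
    ring
  · intro e' _ hne
    rw [if_neg (fun h => hne (e_inj h.1 h.2)), if_neg]
    · ring
    · rintro ⟨h1, h2⟩
      have h3 := e1_lt e
      have h4 := e1_lt e'
      rw [h1, h2] at h4
      exact absurd (h3.trans h4) (lt_irrefl _)
  · intro h
    exact absurd (mem_univ _) h

theorem exists_of_co {L : Edge n → ℝ} {v p : Fin 3 × Fin n} (h : co L v p ≠ 0) :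
    ∃ e, L e ≠ 0 ∧ ((e1 e = v ∧ e2 e = p) ∨ (e2 e = v ∧ e1 e = p)) := by
  classical
  by_contra! hc
  apply h
  unfold co
  refine sum_eq_zero fun e _ => ?_
  by_cases h0 : L e = 0
  · rw [h0, zero_mul]
  · obtain ⟨h1, h2⟩ := hc e h0
    rw [if_neg (fun h => h1 h.1 h.2), if_neg (fun h => h2 h.1 h.2)]
    ring

theorem part_ne_of_co {L : Edge n → ℝ} {v p : Fin 3 × Fin n} (h : co L v p ≠ 0) : v.1 ≠ p.1 := by
  obtain ⟨e, -, h1 | h1⟩ := exists_of_co h
  · rw [← h1.1, ← h1.2]
    exact (e1_lt e).ne
  · rw [← h1.1, ← h1.2]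
    exact (e1_lt e).ne'

/-- the label with a sign -/
def lam (ω : Fin 3 × Fin n → ℝ) (p : Fin 3 × Fin n) : ℝ := if p.1 = 1 then -ω p else ω p

/-- the class of a vertex as seen from the vertex `v` -/
def cls (ω : Fin 3 × Fin n → ℝ) (v p : Fin 3 × Fin n) : ℝ :=
  if p.1 = v.1 + 1 then lam ω p else -lam ω v - lam ω p

/-- a sign -/
def sg (v p : Fin 3 × Fin n) : ℝ := if p.1 = v.1 + 1 then 1 else -1

theorem sg_ne (v p : Fin 3 × Fin n) : sg v p ≠ 0 := by
  unfold sg
  split_ifs <;> norm_num

open Classical in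
/-- the condition at the vertex `v` -/
def Cnd (ω : Fin 3 × Fin n → ℝ) (L : Edge n → ℝ) (v : Fin 3 × Fin n) : Prop :=
  ∀ t : ℝ, ∑ p, (if cls ω v p = t then sg v p * co L v p else 0) = 0

theorem sum_co (L : Edge n → ℝ) (v : Fin 3 × Fin n) (g : Fin 3 × Fin n → ℝ) :
    ∑ p, g p * co L v p =
      ∑ e, L e * ((if e1 e = v then g (e2 e) else 0) + if e2 e = v then g (e1 e) else 0) := by
  classical
  unfold co
  simp only [mul_sum]
  rw [sum_comm]
  refine sum_congr rfl fun e _ => ?_
  have h1 : ∀ p, g p * (L e * ((if e1 e = v ∧ e2 e = p then (1 : ℝ) else 0) +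
      if e2 e = v ∧ e1 e = p then 1 else 0)) =
      L e * ((if e2 e = p then (if e1 e = v then g p else 0) else 0) +
      if e1 e = p then (if e2 e = v then g p else 0) else 0) := by
    intro p
    split_ifs <;> first | ring1 | (exfalso; tauto)
  rw [sum_congr rfl fun p _ => h1 p, ← mul_sum, sum_add_distrib, sum_ite_eq, sum_ite_eq,
    if_pos (mem_univ _), if_pos (mem_univ _)]

theorem cnd_of_bad {ω : Fin 3 × Fin n → ℝ} {L : Edge n → ℝ} (h : Bad ω L)
    (v : Fin 3 × Fin n) : Cnd ω L v := by
  classical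
  intro t
  set g : Fin 3 × Fin n → ℝ := fun p => if cls ω v p = t then sg v p else 0 with hg
  have h1 : ∑ p, (if cls ω v p = t then sg v p * co L v p else 0) = ∑ p, g p * co L v p := by
    refine sum_congr rfl fun p _ => ?_
    simp only [hg]
    split_ifs
    · rfl
    · rw [zero_mul]
  rw [h1, sum_co]
  refine h _ fun s hs => ?_
  obtain ⟨i, j, k⟩ := s
  unfold lab at hs
  simp only at hs
  obtain ⟨c, a⟩ := v
  unfold wt
  simp only [e1, e2]
  fin_cases c
  · by_cases ha : i = a
    · subst ha
      have : ω (1, j) = ω (0, i) + ω (2, k) := by linarith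
      simp [hg, cls, sg, lam, this]
      split_ifs with h1 h2 h2
      all_goals first | (norm_num; done) | exact absurd (by linarith) h1 |
        exact absurd (by linarith) h2
    · simp [ha]
  · by_cases ha : j = a
    · subst ha
      have : ω (1, j) = ω (0, i) + ω (2, k) := by linarith
      simp [hg, cls, sg, lam, this]
      split_ifs with h1 h2 h2
      all_goals first | (norm_num; done) | exact absurd (by linarith) h1 |
        exact absurd (by linarith) h2
    · simp [ha]
  · by_cases ha : k = a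
    · subst ha
      have : ω (1, j) = ω (0, i) + ω (2, k) := by linarith
      simp [hg, cls, sg, lam, this]
      split_ifs with h1 h2 h2
      all_goals first | (norm_num; done) | exact absurd (by linarith) h1 |
        exact absurd (by linarith) h2
    · simp [ha]

theorem cls_update_of_ne {ω : Fin 3 × Fin n → ℝ} {v p q : Fin 3 × Fin n} (hv : v ≠ p)
    (hq : q ≠ p) (z : ℝ) [DecidableEq (Fin 3 × Fin n)] :
    cls (Function.update ω p z) v q = cls ω v q := by
  unfold cls lam
  rw [Function.update_of_ne hv, Function.update_of_ne hq]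

theorem cls_update_inj {ω : Fin 3 × Fin n → ℝ} {v p : Fin 3 × Fin n} (hv : v ≠ p) {z z' : ℝ}
    [DecidableEq (Fin 3 × Fin n)]
    (h : cls (Function.update ω p z) v p = cls (Function.update ω p z') v p) : z = z' := by
  unfold cls lam at h
  rw [Function.update_of_ne hv, Function.update_of_ne hv, Function.update_self,
    Function.update_self] at h
  split_ifs at h <;> linarith

theorem cnd_inj {ω : Fin 3 × Fin n → ℝ} {L : Edge n → ℝ} {v p : Fin 3 × Fin n}
    (h : co L v p ≠ 0) {z z' : ℝ} [DecidableEq (Fin 3 × Fin n)]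
    (h1 : Cnd (Function.update ω p z) L v) (h2 : Cnd (Function.update ω p z') L v) : z = z' := by
  classical
  have hvp : v ≠ p := by
    rintro rfl
    exact part_ne_of_co h rfl
  by_contra hz
  have e1 := h1 (cls (Function.update ω p z) v p)
  have e2 := h2 (cls (Function.update ω p z) v p)
  rw [← add_sum_erase _ _ (mem_univ p)] at e1 e2
  rw [if_pos rfl] at e1
  rw [if_neg (fun h => hz (cls_update_inj hvp h).symm)] at e2
  have e3 : ∑ q ∈ univ.erase p, (if cls (Function.update ω p z) v q =
      cls (Function.update ω p z) v p then sg v q * co L v q else 0) =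
      ∑ q ∈ univ.erase p, (if cls (Function.update ω p z') v q =
      cls (Function.update ω p z) v p then sg v q * co L v q else 0) := by
    refine sum_congr rfl fun q hq => ?_
    rw [cls_update_of_ne hvp (mem_erase.1 hq).1, cls_update_of_ne hvp (mem_erase.1 hq).1]
  rw [e3] at e1
  have : sg v p * co L v p = 0 := by linarith
  exact mul_ne_zero (sg_ne v p) h this

theorem cnd_update {ω : Fin 3 × Fin n → ℝ} {L : Edge n → ℝ} {v p : Fin 3 × Fin n}
    (hvp : v ≠ p) (h : co L v p = 0) {z : ℝ} [DecidableEq (Fin 3 × Fin n)]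
    (h1 : Cnd (Function.update ω p z) L v) : Cnd ω L v := by
  intro t
  refine (sum_congr rfl fun q _ => ?_).trans (h1 t)
  by_cases hq : q = p
  · rw [hq, h]
    simp
  · rw [cls_update_of_ne hvp hq]

/-- a form all of whose vertices are joined is bad only if it is a multiple of the weight of a
triangle -/
theorem not_bad_of_complete {ω : Fin 3 × Fin n → ℝ} {L : Edge n → ℝ} (hNS : NS L)
    (hb : ∀ v, Cnd ω L v)
    (hc : ∀ p q p' q', co L p p' ≠ 0 → co L q q' ≠ 0 → p ≠ q → co L p q ≠ 0) : False := by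
  classical
  obtain ⟨e₀, he₀⟩ : ∃ e, L e ≠ 0 := by
    by_contra! h
    exact hNS.1 (funext h)
  have hab : co L (e1 e₀) (e2 e₀) ≠ 0 := by rw [co_e]; exact he₀
  set a := e1 e₀ with ha
  set b := e2 e₀ with hb'
  obtain ⟨c, hcb, hac⟩ : ∃ c, c ≠ b ∧ co L a c ≠ 0 := by
    by_contra! h
    have h1 := hb a (cls ω a b)
    rw [sum_eq_single b] at h1
    · rw [if_pos rfl] at h1
      exact mul_ne_zero (sg_ne a b) hab h1
    · intro p _ hp
      rw [h p hp, mul_zero, ite_self]
    · intro h
      exact absurd (mem_univ _) h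
  have hba : co L b a ≠ 0 := by rw [co_symm]; exact hab
  have hca : co L c a ≠ 0 := by rw [co_symm]; exact hac
  have hbc : co L b c ≠ 0 := hc b c a a hba hca hcb.symm
  have p1 := part_ne_of_co hab
  have p2 := part_ne_of_co hac
  have p3 := part_ne_of_co hbc
  have hpart : ∀ d : Fin 3, ∃ i q, co L (d, i) q ≠ 0 := by
    intro d
    have h1 : d = a.1 ∨ d = b.1 ∨ d = c.1 := by omega
    rcases h1 with rfl | rfl | rfl
    · exact ⟨a.2, b, hab⟩
    · exact ⟨b.2, a, hba⟩
    · exact ⟨c.2, a, hca⟩
  obtain ⟨i, qi, hi⟩ := hpart 0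
  obtain ⟨j, qj, hj⟩ := hpart 1
  obtain ⟨k, qk, hk⟩ := hpart 2
  have huniq : ∀ (d : Fin 3) (a b : Fin n) (q q' : Fin 3 × Fin n), co L (d, a) q ≠ 0 →
      co L (d, b) q' ≠ 0 → a = b := by
    intro d a b q q' h1 h2
    by_contra hne
    have h3 : ((d, a) : Fin 3 × Fin n) ≠ (d, b) := fun h => hne (Prod.ext_iff.1 h).2
    exact part_ne_of_co (hc _ _ _ _ h1 h2 h3) rfl
  have n01 : co L (0, i) (1, j) ≠ 0 := hc _ _ _ _ hi hj (by simp)
  have n02 : co L (0, i) (2, k) ≠ 0 := hc _ _ _ _ hi hk (by simp)
  have n12 : co L (1, j) (2, k) ≠ 0 := hc _ _ _ _ hj hk (by simp)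
  have n10 : co L (1, j) (0, i) ≠ 0 := by rw [co_symm]; exact n01
  have hz0 : ∀ p, p ≠ (1, j) ∧ p ≠ (2, k) → co L (0, i) p = 0 := by
    intro p hp
    by_contra h0
    have h1 := part_ne_of_co h0
    have h0' : co L p (0, i) ≠ 0 := by rw [co_symm]; exact h0
    obtain ⟨d, e⟩ := p
    fin_cases d
    · exact h1 rfl
    · have := huniq 1 e j _ _ h0' hj
      subst this
      exact hp.1 rfl
    · have := huniq 2 e k _ _ h0' hk
      subst this
      exact hp.2 rfl
  have hz1 : ∀ p, p ≠ (0, i) ∧ p ≠ (2, k) → co L (1, j) p = 0 := by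
    intro p hp
    by_contra h0
    have h1 := part_ne_of_co h0
    have h0' : co L p (1, j) ≠ 0 := by rw [co_symm]; exact h0
    obtain ⟨d, e⟩ := p
    fin_cases d
    · have := huniq 0 e i _ _ h0' hi
      subst this
      exact hp.1 rfl
    · exact h1 rfl
    · have := huniq 2 e k _ _ h0' hk
      subst this
      exact hp.2 rfl
  have E0 : co L (0, i) (1, j) = co L (0, i) (2, k) := by
    have h1 := hb (0, i) (cls ω (0, i) (1, j))
    rw [sum_eq_add (1, j) (2, k) (by simp) (fun p _ hp => by rw [hz0 p hp, mul_zero, ite_self])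
      (fun h => absurd (mem_univ _) h) (fun h => absurd (mem_univ _) h), if_pos rfl] at h1
    have s1 : sg ((0, i) : Fin 3 × Fin n) (1, j) = 1 := by simp [sg]
    have s2 : sg ((0, i) : Fin 3 × Fin n) (2, k) = -1 := by simp [sg]
    rw [s1, s2] at h1
    split_ifs at h1
    · linarith
    · exact absurd (by linarith) n01
  have E1 : co L (1, j) (2, k) = co L (1, j) (0, i) := by
    have h1 := hb (1, j) (cls ω (1, j) (2, k))
    rw [sum_eq_add (2, k) (0, i) (by simp) (fun p _ hp => by
        rw [hz1 p ⟨hp.2, hp.1⟩, mul_zero, ite_self])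
      (fun h => absurd (mem_univ _) h) (fun h => absurd (mem_univ _) h), if_pos rfl] at h1
    have s1 : sg ((1, j) : Fin 3 × Fin n) (2, k) = 1 := by simp [sg]
    have s2 : sg ((1, j) : Fin 3 × Fin n) (0, i) = -1 := by simp [sg]
    rw [s1, s2] at h1
    split_ifs at h1
    · linarith
    · exact absurd (by linarith) n12
  refine hNS.2 (i, j, k) (L (0, i, j)) ?_
  have c0 : co L (0, i) (1, j) = L (0, i, j) := co_e L (0, i, j)
  have c1 : co L (1, j) (2, k) = L (1, j, k) := co_e L (1, j, k)
  have c2 : co L (0, i) (2, k) = L (2, i, k) := co_e L (2, i, k)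
  have c3 : co L (1, j) (0, i) = L (0, i, j) := by rw [co_symm]; exact c0
  funext e
  rw [Pi.smul_apply, smul_eq_mul]
  unfold ind
  by_cases he : On e (i, j, k)
  · rw [if_pos he, mul_one]
    rcases he with rfl | rfl | rfl
    · rfl
    · show L (1, j, k) = L (0, i, j)
      rw [← c1, E1, c3]
    · show L (2, i, k) = L (0, i, j)
      rw [← c2, ← E0, c0]
  · rw [if_neg he, mul_zero]
    by_contra h0
    apply he
    have h1 : co L (e1 e) (e2 e) ≠ 0 := by rw [co_e]; exact h0
    have h2 : co L (e2 e) (e1 e) ≠ 0 := by rw [co_symm]; exact h1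
    obtain ⟨d, p, q⟩ := e
    unfold On
    fin_cases d
    · simp only [e1, e2] at h1 h2
      have q1 := huniq 0 p i _ _ (by simpa using h1) hi
      have q2 := huniq 1 q j _ _ (by simpa using h2) hj
      subst q1 q2
      exact Or.inl rfl
    · simp only [e1, e2] at h1 h2
      have q1 := huniq 1 p j _ _ (by simpa using h1) hj
      have q2 := huniq 2 q k _ _ (by simpa using h2) hk
      subst q1 q2
      exact Or.inr (Or.inl rfl)
    · simp only [e1, e2] at h1 h2
      have q1 := huniq 0 p i _ _ (by simpa using h1) hi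
      have q2 := huniq 2 q k _ _ (by simpa using h2) hk
      subst q1 q2
      exact Or.inr (Or.inr rfl)

open Classical in
/-- a form which is not a multiple of the weight of a triangle is bad with probability at most
`1 / x ^ 2` -/
theorem prob_bad {x : ℕ} {L : Edge n → ℝ} (hNS : NS L) :
    (x ^ 2 : ℝ) * ∑ ω ∈ Om n x, (if Bad ω L then (1 : ℝ) else 0) ≤ (Om n x).card := by
  by_cases hc : ∀ p q p' q', co L p p' ≠ 0 → co L q q' ≠ 0 → p ≠ q → co L p q ≠ 0
  · have h1 : ∀ ω ∈ Om n x, (if Bad ω L then (1 : ℝ) else 0) = 0 := by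
      intro ω _
      rw [if_neg]
      intro hb
      exact not_bad_of_complete hNS (cnd_of_bad hb) hc
    rw [sum_congr rfl h1, sum_const_zero, mul_zero]
    positivity
  · push Not at hc
    obtain ⟨v', p, p', v, hv', hp, hne, h0⟩ := hc
    -- `p'` is a neighbour of `v'`, `v` is a neighbour of `p`
    have hpv : co L v p ≠ 0 := by rw [co_symm]; exact hp
    have hpp : p ≠ p' := by
      rintro rfl
      exact hv' h0
    set F : (Fin 3 × Fin n → ℝ) → ℝ := fun ω => if Bad ω L then (1 : ℝ) else 0 with hF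
    have h1 := resample (rng n x) p' F
    have h2 := resample (rng n x) p fun ω => ∑ z ∈ rng n x p', F (Function.update ω p' z)
    rw [← h1] at h2
    have h3 : ∀ ω ∈ Fintype.piFinset (rng n x), ∑ z ∈ rng n x p, ∑ z' ∈ rng n x p',
        F (Function.update (Function.update ω p z) p' z') ≤ 1 := by
      intro ω _
      rw [← sum_product', hF, sum_boole]
      have h4 : #{a ∈ rng n x p ×ˢ rng n x p' |
          Bad (Function.update (Function.update ω p a.1) p' a.2) L} ≤ 1 := by
        rw [card_le_one]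
        rintro ⟨z, y⟩ ha ⟨z', y'⟩ hb
        simp only [mem_filter, mem_product] at ha hb
        obtain ⟨-, ha⟩ := ha
        obtain ⟨-, hb⟩ := hb
        have a1 := cnd_of_bad ha v'
        have b1 := cnd_of_bad hb v'
        rw [Function.update_comm hpp] at a1 b1
        have a2 := cnd_update hne h0 a1
        have b2 := cnd_update hne h0 b1
        have e1 := cnd_inj hv' a2 b2
        subst e1
        have a3 := cnd_of_bad ha v
        have b3 := cnd_of_bad hb v
        rw [Function.update_comm hpp] at a3 b3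
        rw [cnd_inj hpv a3 b3]
      exact_mod_cast h4
    have h4 : ((rng n x p).card : ℝ) * (((rng n x p').card : ℝ) *
        ∑ ω ∈ Fintype.piFinset (rng n x), F ω) ≤ (Fintype.piFinset (rng n x)).card := by
      rw [h2]
      refine (sum_le_sum h3).trans ?_
      rw [sum_const, nsmul_eq_mul, mul_one]
    have h5 : (x : ℝ) ≤ (rng n x p).card := by exact_mod_cast le_card_rng x p
    have h5' : (x : ℝ) ≤ (rng n x p').card := by exact_mod_cast le_card_rng x p'
    have h6 : 0 ≤ ∑ ω ∈ Fintype.piFinset (rng n x), F ω := by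
      refine sum_nonneg fun ω _ => ?_
      rw [hF]
      beta_reduce
      split_ifs <;> norm_num
    unfold Om
    refine le_trans ?_ h4
    rw [← mul_assoc]
    refine mul_le_mul_of_nonneg_right ?_ h6
    rw [sq]
    exact mul_le_mul h5 h5' (by positivity) (by positivity)

end Pool.Agent.H692.FR
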