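import Mathlib
import Pool.Agent.H692.FR.Bad

/-!
# One round
-/

set_option autoImplicit false

namespace Pool.Agent.H692.FR

open Finset Filter Topology
open Pool.Agent.N575.LDT (Edge Tri Wts wt tendsto_line)

variable {n : ℕ}

open Classical in
/-- the number of ordered pairs of different triangles with a common edge -/
noncomputable def Q (F : Finset (Tri n)) : ℕ :=
  ((F ×ˢ F).filter fun p => p.1 ≠ p.2 ∧ ∃ e, On e p.1 ∧ On e p.2).card

theorem Q_mono {F F' : Finset (Tri n)} (h : F ⊆ F') : Q F ≤ Q F' := by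
  classical
  unfold Q
  exact card_le_card (filter_subset_filter _ (product_subset_product h h))

theorem wt_continuous (s : Tri n) : Continuous fun w : Wts n => wt w s := by
  unfold wt
  fun_prop

theorem wt_add_smul' (p u : Wts n) (ε : ℝ) (s : Tri n) :
    wt (p + ε • u) s = wt p s + ε * wt u s := by
  unfold wt
  simp only [Pi.add_apply, Pi.smul_apply, smul_eq_mul]
  ring

theorem wt_add (p u : Wts n) (s : Tri n) : wt (p + u) s = wt p s + wt u s := by
  unfold wt
  simp only [Pi.add_apply]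
  ring

theorem dot_add (L : Edge n → ℝ) (p u : Wts n) : dot L (p + u) = dot L p + dot L u := by
  have := dot_add_smul L p u 1
  rwa [one_smul, one_mul] at this

/-- a perturbation which does not change the weights of the tight triangles -/
theorem exists_pert {m : ℕ} (L : Fin m → Edge n → ℝ) (ω : Fin 3 × Fin n → ℝ) (z : Wts n) :
    ∃ y : Wts n, (∀ s, lab ω s = 0 → wt y s = 0) ∧
      ∀ i, ¬ Bad ω (L i) → dot (L i) (z + y) ≠ 0 := by
  classical
  have key : ∀ I : Finset (Fin m), ∃ y : Wts n, (∀ s, lab ω s = 0 → wt y s = 0) ∧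
      ∀ i ∈ I, ¬ Bad ω (L i) → dot (L i) (z + y) ≠ 0 := by
    intro I
    induction I using Finset.induction_on with
    | empty =>
      refine ⟨0, fun s _ => ?_, fun i hi => absurd hi (Finset.notMem_empty _)⟩
      unfold wt
      simp
    | insert i I _ ih =>
      obtain ⟨y, hy, h1⟩ := ih
      by_cases h0 : Bad ω (L i)
      · refine ⟨y, hy, fun j hj hj0 => ?_⟩
        rcases Finset.mem_insert.1 hj with rfl | hj
        · exact absurd h0 hj0
        · exact h1 j hj hj0
      · obtain ⟨v, hv, hv0⟩ : ∃ v : Wts n, (∀ s, lab ω s = 0 → wt v s = 0) ∧ dot (L i) v ≠ 0 := by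
          unfold Bad at h0
          push Not at h0
          exact h0
        have h3 : ∀ᶠ ε in 𝓝[>] (0 : ℝ), ∀ j : Fin m, j ∈ I → ¬ Bad ω (L j) →
            dot (L j) ((z + y) + ε • v) ≠ 0 := by
          refine eventually_all.2 fun j => ?_
          by_cases hj : j ∈ I ∧ ¬ Bad ω (L j)
          · filter_upwards [eventually_dot_ne (L j) (z + y) v (Or.inl (h1 j hj.1 hj.2))]
              with ε h _ _
            exact h
          · exact Eventually.of_forall fun ε h4 h5 => absurd ⟨h4, h5⟩ hj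
        have h4 := eventually_dot_ne (L i) (z + y) v (Or.inr hv0)
        obtain ⟨ε, h6, h7⟩ := (h3.and h4).exists
        refine ⟨y + ε • v, fun s hs => ?_, fun j hj hj0 => ?_⟩
        · rw [wt_add_smul', hy s hs, hv s hs, mul_zero, add_zero]
        · rw [← add_assoc]
          rcases Finset.mem_insert.1 hj with rfl | hj
          · exact h7
          · exact h6 j hj hj0
  obtain ⟨y, hy, h⟩ := key Finset.univ
  exact ⟨y, hy, fun i hi => h i (Finset.mem_univ _) hi⟩

/-- breaking edges -/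
theorem break_edges {m : ℕ} (L : Fin m → Edge n → ℝ) (ω : Fin 3 × Fin n → ℝ)
    (B : Finset (Edge n)) (hB : ∀ i, NS (L i) → Bad ω (L i) → ∃ e ∈ B, L i e ≠ 0) :
    ∃ v : Wts n, (∀ s, 0 ≤ wt v s) ∧ (∀ i, NS (L i) → dot (L i) v ≠ 0) ∧
      ∀ s, wt v s = 0 ↔ lab ω s = 0 ∧ ∀ e ∈ B, ¬ On e s := by
  classical
  set L' : Fin m → Edge n → ℝ := fun i e => if e ∈ B then L i e else 0 with hL'
  have hU : IsOpen {y : Wts n | ∀ e, 0 < y e} := by
    have : {y : Wts n | ∀ e, 0 < y e} = ⋂ e, {y | 0 < y e} := by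
      ext y
      simp
    rw [this]
    exact isOpen_iInter_of_finite fun e => isOpen_lt continuous_const (continuous_apply e)
  obtain ⟨y, hy, hyL⟩ := exists_generic L' hU (p := fun _ => 1) (fun _ => one_pos)
  set z : Wts n := fun e => if e ∈ B then y e else 0 with hz
  have hdot : ∀ i, dot (L i) z = dot (L' i) y := by
    intro i
    unfold dot
    refine sum_congr rfl fun e _ => ?_
    simp only [hL', hz]
    split_ifs
    · rfl
    · simp
  have hz0 : ∀ e, 0 ≤ z e := by
    intro e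
    simp only [hz]
    split_ifs
    · exact (hy e).le
    · exact le_rfl
  have hzB : ∀ e, z e = 0 ↔ e ∉ B := by
    intro e
    simp only [hz]
    split_ifs with h
    · simp [h, (hy e).ne']
    · simp [h]
  obtain ⟨y₂, hy₂, hy₂'⟩ := exists_pert L ω z
  have h1 : ∀ᶠ ε in 𝓝[>] (0 : ℝ), ∀ i, NS (L i) → dot (L i) (qw ω + ε • (z + y₂)) ≠ 0 := by
    refine eventually_all.2 fun i => ?_
    by_cases hi : NS (L i)
    · have : dot (L i) (z + y₂) ≠ 0 := by
        by_cases hb : Bad ω (L i)
        · rw [dot_add, hb y₂ hy₂, add_zero, hdot]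
          obtain ⟨e, he, hne⟩ := hB i hi hb
          refine hyL i fun h => hne ?_
          have := congrFun h e
          simp only [hL'] at this
          rwa [if_pos he] at this
        · exact hy₂' i hb
      filter_upwards [eventually_dot_ne (L i) (qw ω) (z + y₂) (Or.inr this)] with ε h _
      exact h
    · exact Eventually.of_forall fun ε h => absurd h hi
  have h2 : ∀ᶠ ε in 𝓝[>] (0 : ℝ), ∀ s : Tri n, lab ω s ≠ 0 →
      0 < wt (qw ω + ε • (z + y₂)) s := by
    refine eventually_all.2 fun s => ?_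
    by_cases hs : lab ω s = 0
    · exact Eventually.of_forall fun ε h => absurd hs h
    · have h3 : 0 < wt (qw ω) s := by
        rw [wt_qw]
        positivity
      have h4 := (wt_continuous s).continuousAt.eventually (lt_mem_nhds h3)
      filter_upwards [(tendsto_line (qw ω) (z + y₂)).eventually h4] with ε h _
      exact h
  obtain ⟨ε, ⟨h3, h4⟩, hε⟩ := ((h1.and h2).and self_mem_nhdsWithin).exists
  have hε' : 0 < ε := hε
  have hwz : ∀ s, 0 ≤ wt z s := fun s => add_nonneg (add_nonneg (hz0 _) (hz0 _)) (hz0 _)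
  have htight : ∀ s, lab ω s = 0 → wt (qw ω + ε • (z + y₂)) s = ε * wt z s := by
    intro s hs
    rw [wt_add_smul', wt_add, hy₂ s hs, wt_qw, hs]
    ring
  refine ⟨qw ω + ε • (z + y₂), ?_, h3, ?_⟩
  · intro s
    by_cases hs : lab ω s = 0
    · rw [htight s hs]
      exact mul_nonneg hε'.le (hwz s)
    · exact (h4 s hs).le
  · intro s
    by_cases hs : lab ω s = 0
    · rw [htight s hs, mul_eq_zero, or_iff_right hε'.ne', and_iff_right hs]
      unfold wt
      rw [add_eq_zero_iff_of_nonneg (add_nonneg (hz0 _) (hz0 _)) (hz0 _),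
        add_eq_zero_iff_of_nonneg (hz0 _) (hz0 _), hzB, hzB, hzB]
      constructor
      · rintro ⟨⟨h3, h4⟩, h5⟩ e he h6
        rcases h6 with rfl | rfl | rfl
        · exact h3 he
        · exact h4 he
        · exact h5 he
      · intro h
        exact ⟨⟨fun h3 => h _ h3 (Or.inl rfl), fun h3 => h _ h3 (Or.inr (Or.inl rfl))⟩,
          fun h3 => h _ h3 (Or.inr (Or.inr rfl))⟩
    · constructor
      · intro h
        exact absurd h (h4 s hs).ne'
      · intro h
        exact absurd h.1 hs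

open Classical in
/-- the number of the triangles of `G` with the edge `e` -/
noncomputable def deg (G : Finset (Tri n)) (e : Edge n) : ℕ := (G.filter fun s => On e s).card

/-- few triangles have edges of large degree -/
theorem high_le (G : Finset (Tri n)) (M : ℕ) [DecidablePred fun s : Tri n => ∃ e, On e s ∧ M + 1 ≤ deg G e] :
    M * (G.filter fun s => ∃ e, On e s ∧ M + 1 ≤ deg G e).card ≤ Q G := by
  classical
  unfold Q
  have h1 : ((G ×ˢ G).filter fun p => p.1 ≠ p.2 ∧ ∃ e, On e p.1 ∧ On e p.2).card =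
      ∑ s ∈ G, (G.filter fun s' => s ≠ s' ∧ ∃ e, On e s ∧ On e s').card := by
    rw [card_filter, sum_product]
    refine sum_congr rfl fun s _ => ?_
    rw [card_filter]
  rw [h1]
  calc M * (G.filter fun s => ∃ e, On e s ∧ M + 1 ≤ deg G e).card
      = ∑ s ∈ G.filter (fun s => ∃ e, On e s ∧ M + 1 ≤ deg G e), M := by
        rw [sum_const, smul_eq_mul, mul_comm]
    _ ≤ ∑ s ∈ G.filter (fun s => ∃ e, On e s ∧ M + 1 ≤ deg G e),
        (G.filter fun s' => s ≠ s' ∧ ∃ e, On e s ∧ On e s').card := by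
        refine sum_le_sum fun s hs => ?_
        obtain ⟨hsG, e, he, hd⟩ := mem_filter.1 hs
        have h2 : ((G.filter fun s => On e s).erase s).card ≤
            (G.filter fun s' => s ≠ s' ∧ ∃ e, On e s ∧ On e s').card := by
          refine card_le_card fun s' hs' => ?_
          rw [mem_erase, mem_filter] at hs'
          rw [mem_filter]
          exact ⟨hs'.2.1, fun h => hs'.1 h.symm, e, he, hs'.2.2⟩
        refine le_trans ?_ h2
        have h3 := pred_card_le_card_erase (s := G.filter fun s => On e s) (a := s)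
        unfold deg at hd
        omega
    _ ≤ ∑ s ∈ G, (G.filter fun s' => s ≠ s' ∧ ∃ e, On e s ∧ On e s').card :=
        sum_le_sum_of_subset (filter_subset _ _)

/-- what remains after breaking edges -/
theorem remain {m : ℕ} (G : Finset (Tri n)) {M : ℕ} (hM : 0 < M) (I : Finset (Fin m))
    (ed : Fin m → Edge n) : ∃ B : Finset (Edge n), (∀ i ∈ I, ed i ∈ B) ∧
    ∀ G' : Finset (Tri n), (∀ s, s ∈ G' ↔ s ∈ G ∧ ∀ e ∈ B, ¬ On e s) →
      (G.card : ℝ) - (Q G : ℝ) / M - M * I.card ≤ G'.card := by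
  classical
  set H : Finset (Edge n) := univ.filter fun e => M + 1 ≤ deg G e with hH
  refine ⟨H ∪ I.image ed, fun i hi => mem_union_right _ (mem_image_of_mem _ hi), ?_⟩
  intro G' hG'
  have h1 : G ⊆ G' ∪ ((G.filter fun s => ∃ e, On e s ∧ M + 1 ≤ deg G e) ∪
      (I.filter fun i => deg G (ed i) ≤ M).biUnion fun i => G.filter fun s => On (ed i) s) := by
    intro s hs
    rw [mem_union, mem_union]
    by_cases h2 : s ∈ G'
    · exact Or.inl h2
    · right
      rw [hG'] at h2
      push Not at h2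
      obtain ⟨e, he, hes⟩ := h2 hs
      by_cases h3 : M + 1 ≤ deg G e
      · left
        exact mem_filter.2 ⟨hs, e, hes, h3⟩
      · right
        rcases mem_union.1 he with h4 | h4
        · exact absurd (mem_filter.1 h4).2 h3
        · obtain ⟨i, hi, rfl⟩ := mem_image.1 h4
          rw [mem_biUnion]
          exact ⟨i, mem_filter.2 ⟨hi, by omega⟩, mem_filter.2 ⟨hs, hes⟩⟩
  have h2 := card_le_card h1
  have h3 := card_union_le G' ((G.filter fun s => ∃ e, On e s ∧ M + 1 ≤ deg G e) ∪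
      (I.filter fun i => deg G (ed i) ≤ M).biUnion fun i => G.filter fun s => On (ed i) s)
  have h4 := card_union_le (G.filter fun s => ∃ e, On e s ∧ M + 1 ≤ deg G e)
      ((I.filter fun i => deg G (ed i) ≤ M).biUnion fun i => G.filter fun s => On (ed i) s)
  have h5 : ((I.filter fun i => deg G (ed i) ≤ M).biUnion
      fun i => G.filter fun s => On (ed i) s).card ≤ I.card * M := by
    refine card_biUnion_le.trans ?_
    calc ∑ i ∈ I.filter (fun i => deg G (ed i) ≤ M), (G.filter fun s => On (ed i) s).card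
        ≤ ∑ i ∈ I.filter (fun i => deg G (ed i) ≤ M), M :=
          sum_le_sum fun i hi => (mem_filter.1 hi).2
      _ = (I.filter fun i => deg G (ed i) ≤ M).card * M := by rw [sum_const, smul_eq_mul]
      _ ≤ I.card * M := Nat.mul_le_mul_right _ (card_filter_le _ _)
  have h6 := high_le G M
  have hM' : (0 : ℝ) < M := by exact_mod_cast hM
  have h7 : ((G.filter fun s => ∃ e, On e s ∧ M + 1 ≤ deg G e).card : ℝ) ≤ (Q G : ℝ) / M := by
    rw [le_div_iff₀ hM']
    calc ((G.filter fun s => ∃ e, On e s ∧ M + 1 ≤ deg G e).card : ℝ) * M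
        = ((M * (G.filter fun s => ∃ e, On e s ∧ M + 1 ≤ deg G e).card : ℕ) : ℝ) := by
          push_cast; ring
      _ ≤ (Q G : ℝ) := by exact_mod_cast h6
  have h8 : (G.card : ℝ) ≤ G'.card + (((G.filter fun s => ∃ e, On e s ∧ M + 1 ≤ deg G e).card : ℝ)
      + (I.card : ℝ) * M) := by
    have : G.card ≤ G'.card + ((G.filter fun s => ∃ e, On e s ∧ M + 1 ≤ deg G e).card +
        I.card * M) := by omega
    exact_mod_cast this
  linarith

/-- the averages -/
theorem exists_labels (F J : Finset (Tri n)) {m q : ℕ} (L : Fin m → Edge n → ℝ) {x : ℕ}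
    (hx : 0 < x) (hLq : ∀ I : Finset (Fin m), (∀ i ∈ I, NS (L i)) → I.card ≤ q)
    {a b : ℝ} (ha : 0 ≤ a) (hb : 0 ≤ b) : ∃ ω : Fin 3 × Fin n → ℝ,
    ∀ (G K : Finset (Tri n)) (I : Finset (Fin m)), (∀ s, s ∈ G ↔ s ∈ F ∧ lab ω s = 0) →
      (∀ s, s ∈ K ↔ s ∈ J ∧ lab ω s = 0) → (∀ i, i ∈ I ↔ NS (L i) ∧ Bad ω (L i)) →
      (F.card : ℝ) / (2 * x) - a * (Q F / (2 * x ^ 2)) - b * (q / x ^ 2) -
        (J.card : ℝ) / (2 * x) ≤ (G.card : ℝ) - a * Q G - b * I.card - K.card := by
  classical
  have hx' : (0 : ℝ) < x := by exact_mod_cast hx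
  set P := (F ×ˢ F).filter fun p => p.1 ≠ p.2 ∧ ∃ e, On e p.1 ∧ On e p.2 with hP
  set A : Finset (Tri n) → (Fin 3 × Fin n → ℝ) → ℝ :=
    fun F ω => ∑ s ∈ F, if lab ω s = 0 then (1 : ℝ) else 0 with hA
  set Bq : (Fin 3 × Fin n → ℝ) → ℝ := fun ω =>
    ∑ p ∈ P, if lab ω p.1 = 0 ∧ lab ω p.2 = 0 then (1 : ℝ) else 0 with hBq
  set Cv : (Fin 3 × Fin n → ℝ) → ℝ := fun ω =>
    ∑ i ∈ univ.filter (fun i => NS (L i)), if Bad ω (L i) then (1 : ℝ) else 0 with hCv
  have h1 : ∀ F : Finset (Tri n),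
      (F.card : ℝ) * (Om n x).card / (2 * x) = ∑ ω ∈ Om n x, A F ω := by
    intro F
    rw [hA, sum_comm, div_eq_iff (by positivity), sum_mul]
    have : ∀ s ∈ F, (∑ ω ∈ Om n x, if lab ω s = 0 then (1 : ℝ) else 0) * (2 * x) =
        (Om n x).card := by
      intro s _
      rw [mul_comm]
      exact prob_tight x s
    rw [sum_congr rfl this, sum_const, nsmul_eq_mul]
  have h2 : ∑ ω ∈ Om n x, Bq ω ≤ (Q F : ℝ) * (Om n x).card / (2 * x ^ 2) := by
    rw [hBq, sum_comm, le_div_iff₀ (by positivity), sum_mul]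
    have : ∀ p ∈ P, (∑ ω ∈ Om n x, if lab ω p.1 = 0 ∧ lab ω p.2 = 0 then (1 : ℝ) else 0) *
        (2 * x ^ 2) ≤ (Om n x).card := by
      intro p hp
      rw [mul_comm]
      exact prob_pair x (mem_filter.1 hp).2.1
    refine (sum_le_sum this).trans ?_
    rw [sum_const, nsmul_eq_mul]
    exact le_rfl
  have h3 : ∑ ω ∈ Om n x, Cv ω ≤ (q : ℝ) * (Om n x).card / x ^ 2 := by
    rw [hCv, sum_comm, le_div_iff₀ (by positivity), sum_mul]
    have : ∀ i ∈ univ.filter (fun i => NS (L i)),
        (∑ ω ∈ Om n x, if Bad ω (L i) then (1 : ℝ) else 0) * x ^ 2 ≤ (Om n x).card := by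
      intro i hi
      rw [mul_comm]
      exact prob_bad (mem_filter.1 hi).2
    refine (sum_le_sum this).trans ?_
    rw [sum_const, nsmul_eq_mul]
    have h4 : ((univ.filter (fun i => NS (L i))).card : ℝ) ≤ q := by
      exact_mod_cast hLq _ fun i hi => (mem_filter.1 hi).2
    exact mul_le_mul_of_nonneg_right h4 (by positivity)
  obtain ⟨ω, hω, h4⟩ : ∃ ω ∈ Om n x, (F.card : ℝ) / (2 * x) - a * (Q F / (2 * x ^ 2)) -
      b * (q / x ^ 2) - (J.card : ℝ) / (2 * x) ≤ A F ω - a * Bq ω - b * Cv ω - A J ω := by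
    refine exists_le_of_sum_le (Om_nonempty hx) ?_
    rw [sum_const, nsmul_eq_mul, sum_sub_distrib, sum_sub_distrib, sum_sub_distrib, ← mul_sum,
      ← mul_sum, ← h1, ← h1]
    have h5 := mul_le_mul_of_nonneg_left h2 ha
    have h6 := mul_le_mul_of_nonneg_left h3 hb
    have e1 : ((Om n x).card : ℝ) * ((F.card : ℝ) / (2 * x) - a * (Q F / (2 * x ^ 2)) -
        b * (q / x ^ 2) - (J.card : ℝ) / (2 * x)) = (F.card : ℝ) * (Om n x).card / (2 * x) -
        a * ((Q F : ℝ) * (Om n x).card / (2 * x ^ 2)) -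
        b * ((q : ℝ) * (Om n x).card / x ^ 2) - (J.card : ℝ) * (Om n x).card / (2 * x) := by ring
    rw [e1]
    linarith
  refine ⟨ω, fun G K I hG hK hI => h4.trans (le_of_eq ?_)⟩
  have e1 : A F ω = G.card := by
    rw [hA]
    beta_reduce
    rw [sum_boole]
    congr 2
    ext s
    rw [mem_filter, hG]
  have e1' : A J ω = K.card := by
    rw [hA]
    beta_reduce
    rw [sum_boole]
    congr 2
    ext s
    rw [mem_filter, hK]
  have e2 : Bq ω = Q G := by
    rw [hBq]
    beta_reduce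
    rw [sum_boole]
    unfold Q
    congr 2
    ext p
    rw [hP, mem_filter, mem_filter, mem_filter, mem_product, mem_product, hG, hG]
    tauto
  have e3 : Cv ω = I.card := by
    rw [hCv]
    beta_reduce
    rw [sum_boole, filter_filter]
    congr 2
    ext i
    rw [mem_filter, hI]
    simp
  rw [e1, e1', e2, e3]

/-- one round -/
theorem stepA (F J : Finset (Tri n)) {m q : ℕ} (L : Fin m → Edge n → ℝ) {x : ℕ} (hx : 0 < x)
    (hLq : ∀ I : Finset (Fin m), (∀ i ∈ I, NS (L i)) → I.card ≤ q) (hqm : q ≤ m)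
    {ρ : ℝ} (hρ : 0 < ρ) (hQ : (Q F : ℝ) ≤ ρ * F.card) (hJ : J.card ≤ m)
    (hT : 64 * (m : ℝ) ≤ F.card) (hT' : 1024 * (q : ℝ) * ρ ≤ x ^ 2 * F.card) :
    ∃ v : Wts n, (∀ s, 0 ≤ wt v s) ∧ (∀ i, NS (L i) → dot (L i) v ≠ 0) ∧
      ∀ F' : Finset (Tri n), (∀ s, s ∈ F' ↔ s ∈ F ∧ wt v s = 0 ∧ s ∉ J) →
        (F.card : ℝ) / (4 * x) ≤ F'.card ∧ (Q F' : ℝ) ≤ 4 * ρ / x * F'.card := by
  classical
  have hx' : (0 : ℝ) < x := by exact_mod_cast hx
  have hx1 : (1 : ℝ) ≤ x := by exact_mod_cast hx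
  set M : ℕ := ⌈16 * ρ / x⌉₊ with hM
  have hM1 : 16 * ρ / x ≤ (M : ℝ) := Nat.le_ceil _
  have hM2 : (M : ℝ) < 16 * ρ / x + 1 := Nat.ceil_lt_add_one (by positivity)
  have hMpos : (0 : ℝ) < M := lt_of_lt_of_le (by positivity) hM1
  have hM0 : 0 < M := by exact_mod_cast hMpos
  set θ : ℝ := x / (4 * ρ) with hθ
  have hθ0 : 0 < θ := by positivity
  have hqm' : (q : ℝ) ≤ m := by exact_mod_cast hqm
  obtain ⟨ω, hω⟩ := exists_labels F J L hx hLq (a := 1 / M + θ) (b := M) (by positivity)
    (by positivity)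
  set G := F.filter fun s => lab ω s = 0 with hG
  set K := J.filter fun s => lab ω s = 0 with hK
  set I := univ.filter fun i => NS (L i) ∧ Bad ω (L i) with hI
  have h1 := hω G K I (fun s => by rw [hG, mem_filter]) (fun s => by rw [hK, mem_filter])
    (fun i => by rw [hI, mem_filter]; simp)
  have hed : ∀ i, ∃ e, i ∈ I → L i e ≠ 0 := by
    intro i
    by_cases h : i ∈ I
    · have h2 := (mem_filter.1 h).2.1.1
      by_contra! hc
      apply h2
      funext e
      exact (hc e).2
    · by_cases hn : Nonempty (Edge n)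
      · obtain ⟨e⟩ := hn
        exact ⟨e, fun h' => absurd h' h⟩
      · exfalso
        have hFe : F = ∅ := by
          rw [eq_empty_iff_forall_notMem]
          intro s _
          exact hn ⟨(0, s.1, s.2.1)⟩
        rw [hFe, card_empty] at hT
        have hm : 0 < m := Fin.pos i
        have hm' : (0 : ℝ) < m := by exact_mod_cast hm
        push_cast at hT
        linarith
  choose ed hed using hed
  obtain ⟨B, hB1, hB2⟩ := remain G hM0 I ed
  obtain ⟨v, hv1, hv2, hv3⟩ := break_edges L ω B (by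
    intro i hi h0
    have : i ∈ I := by rw [hI, mem_filter]; exact ⟨mem_univ _, hi, h0⟩
    exact ⟨ed i, hB1 i this, hed i this⟩)
  refine ⟨v, hv1, hv2, fun F' hF' => ?_⟩
  set G' := F.filter fun s => wt v s = 0 with hG'
  have hG'G : ∀ s, s ∈ G' ↔ s ∈ G ∧ ∀ e ∈ B, ¬ On e s := by
    intro s
    rw [hG', mem_filter, hv3, hG, mem_filter]
    tauto
  have h2 := hB2 G' hG'G
  have h3 : Q F' ≤ Q G := Q_mono fun s hs => by
    have h4 := (hF' s).1 hs
    rw [hG, mem_filter]
    exact ⟨h4.1, ((hv3 s).1 h4.2.1).1⟩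
  have h3' : (Q F' : ℝ) ≤ Q G := by exact_mod_cast h3
  have h3'' : (G'.card : ℝ) ≤ F'.card + K.card := by
    have h4 : G' ⊆ F' ∪ K := by
      intro s hs
      rw [hG', mem_filter] at hs
      rw [mem_union, hF', hK, mem_filter]
      by_cases hJs : s ∈ J
      · exact Or.inr ⟨hJs, ((hv3 s).1 hs.2).1⟩
      · exact Or.inl ⟨hs.1, hs.2, hJs⟩
    have h5 := (card_le_card h4).trans (card_union_le _ _)
    exact_mod_cast h5
  have hN : (0 : ℝ) ≤ F.card := by positivity
  have hJ' : (J.card : ℝ) ≤ m := by exact_mod_cast hJ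
  -- the main estimate
  have h4 : (F.card : ℝ) / (4 * x) ≤ (F.card : ℝ) / (2 * x) -
      (1 / M + θ) * (Q F / (2 * x ^ 2)) - M * (q / x ^ 2) - (J.card : ℝ) / (2 * x) := by
    have h5 : 1 / (M : ℝ) ≤ x / (16 * ρ) := by
      rw [div_le_div_iff₀ hMpos (by positivity), one_mul]
      rw [div_le_iff₀ hx'] at hM1
      linarith
    have h6 : (1 / (M : ℝ) + θ) * (Q F / (2 * x ^ 2)) ≤
        (x / (16 * ρ) + x / (4 * ρ)) * (ρ * F.card / (2 * x ^ 2)) := by
      have h7 : (Q F : ℝ) / (2 * x ^ 2) ≤ ρ * F.card / (2 * x ^ 2) :=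
        div_le_div_of_nonneg_right hQ (by positivity)
      exact mul_le_mul (by rw [hθ]; linarith) h7 (by positivity) (by positivity)
    have h8 : (x / (16 * ρ) + x / (4 * ρ)) * (ρ * F.card / (2 * x ^ 2)) =
        5 / 32 * ((F.card : ℝ) / x) := by
      field_simp
      ring
    have h9 : (M : ℝ) * (q / x ^ 2) ≤ 1 / 32 * ((F.card : ℝ) / x) := by
      have h10 : 32 * ((M : ℝ) * q) ≤ x * F.card := by
        have hm0 : (0 : ℝ) ≤ q := by positivity
        have h11 := mul_le_mul_of_nonneg_right hM2.le hm0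
        have h12 : (16 * ρ / x + 1) * (q : ℝ) = 16 * ρ * q / x + q := by
          field_simp
        rw [h12] at h11
        have h13 : 16 * ρ * q / x ≤ x * F.card / 64 := by
          rw [div_le_iff₀ hx']
          linarith
        have h14 : (q : ℝ) ≤ x * F.card / 64 := by
          have h16 := mul_le_mul_of_nonneg_right hx1 hN
          linarith
        linarith
      rw [← mul_div_assoc, ← mul_div_assoc, div_le_div_iff₀ (by positivity) hx']
      have h17 := mul_le_mul_of_nonneg_right h10 hx'.le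
      linarith
    have h15 : (J.card : ℝ) / (2 * x) ≤ 1 / 128 * ((F.card : ℝ) / x) := by
      rw [← mul_div_assoc, div_le_div_iff₀ (by positivity) hx']
      have h16 : (J.card : ℝ) ≤ F.card / 64 := by linarith
      have h17 := mul_le_mul_of_nonneg_right h16 hx'.le
      linarith
    have e1 : (F.card : ℝ) / (2 * x) = 1 / 2 * ((F.card : ℝ) / x) := by
      field_simp
    have e2 : (F.card : ℝ) / (4 * x) = 1 / 4 * ((F.card : ℝ) / x) := by
      field_simp
    have e0 : 0 ≤ (F.card : ℝ) / x := by positivity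
    rw [e1, e2]
    linarith
  have h5 : (F.card : ℝ) / (4 * x) ≤ F'.card - θ * Q F' := by
    have h6 : θ * (Q F' : ℝ) ≤ θ * Q G := mul_le_mul_of_nonneg_left h3' hθ0.le
    have e1 : (1 / (M : ℝ) + θ) * (Q G : ℝ) = (Q G : ℝ) / M + θ * Q G := by ring
    linarith
  have h0 : 0 ≤ (F.card : ℝ) / (4 * x) := by positivity
  have hq0 : (0 : ℝ) ≤ Q F' := by positivity
  have hθq := mul_nonneg hθ0.le hq0
  refine ⟨by linarith, ?_⟩
  have h6 : θ * (Q F' : ℝ) ≤ F'.card := by linarith
  have e1 : (Q F' : ℝ) = 4 * ρ / x * (θ * Q F') := by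
    rw [hθ]
    field_simp
  rw [e1]
  exact mul_le_mul_of_nonneg_left h6 (by positivity)

end Pool.Agent.H692.FR
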