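import Mathlib
import Pool.Agent.H692.FR.StepA

/-!
# The induction over the rounds
-/

set_option autoImplicit false

namespace Pool.Agent.H692.FR

open Finset Filter Topology
open Pool.Agent.N575.LDT (Edge Tri Wts wt tendsto_line)

variable {n : ℕ}

/-- weights which are `a` on the edges of `f` and `1` elsewhere -/
noncomputable def one_off (f : Tri n) (a : ℝ) : Wts n := fun e => 1 + (a - 1) * ind f e

theorem wt_one_off (f : Tri n) (a : ℝ) : wt (one_off f a) f = 3 * a := by
  unfold wt one_off ind On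
  simp
  ring

theorem wt_one_off_pos (f : Tri n) {a : ℝ} (ha : -1 ≤ a) {s : Tri n} (h : s ≠ f) :
    0 < wt (one_off f a) s := by
  have h1 : ∀ e, -1 ≤ one_off f a e := by
    intro e
    unfold one_off ind
    split_ifs <;> linarith
  have h2 : ∀ e, ¬ On e f → one_off f a e = 1 := by
    intro e he
    unfold one_off ind
    rw [if_neg he]
    ring
  obtain ⟨i, j, k⟩ := s
  obtain ⟨i', j', k'⟩ := f
  unfold wt
  by_cases hi : i = i'
  · by_cases hj : j = j'
    · have hk : k ≠ k' := by
        rintro rfl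
        exact h (by rw [hi, hj])
      have h3 := h2 (1, j, k) (by simp [On, hk])
      have h4 := h2 (2, i, k) (by simp [On, hk])
      have h5 := h1 (0, i, j)
      simp only
      linarith
    · have h3 := h2 (1, j, k) (by simp [On, hj])
      have h4 := h2 (0, i, j) (by simp [On, hj])
      have h5 := h1 (2, i, k)
      simp only
      linarith
  · have h3 := h2 (2, i, k) (by simp [On, hi])
    have h4 := h2 (0, i, j) (by simp [On, hi])
    have h5 := h1 (1, j, k)
    simp only
    linarith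

theorem dot_smul (L : Edge n → ℝ) (c : ℝ) (y : Wts n) : dot (c • L) y = c * dot L y := by
  unfold dot
  rw [mul_sum]
  exact sum_congr rfl fun e _ => by rw [Pi.smul_apply, smul_eq_mul]; ring

theorem dot_sub_left (L L' : Edge n → ℝ) (y : Wts n) : dot (L - L') y = dot L y - dot L' y := by
  unfold dot
  rw [← sum_sub_distrib]
  exact sum_congr rfl fun e _ => by rw [Pi.sub_apply]; ring

/-- the last round -/
theorem stepB (F : Finset (Tri n)) {m : ℕ} (L : Fin m → Edge n → ℝ) (hF : m < F.card) :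
    ∃ f ∈ F, ∃ v : Wts n, wt v f = 0 ∧ (∀ s, s ≠ f → 0 < wt v s) ∧
      (∀ i, L i ≠ 0 → dot (L i) v ≠ 0) ∧ ∀ i, ∀ c : ℝ, c ≠ 0 → L i ≠ c • ind f := by
  classical
  -- a triangle which is not tested
  obtain ⟨f, hf, hfL⟩ : ∃ f ∈ F, ∀ i, ∀ c : ℝ, c ≠ 0 → L i ≠ c • ind f := by
    by_contra! hc
    obtain ⟨f₀, hf₀⟩ := card_pos.1 (by omega : 0 < F.card)
    obtain ⟨i₀, -⟩ := hc f₀ hf₀
    have : Nonempty (Fin m) := ⟨i₀⟩
    choose! g c hc0 hgc using hc
    have h1 : F.card ≤ (univ : Finset (Fin m)).card := by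
      refine card_le_card_of_injOn g (fun _ _ => mem_coe.2 (mem_univ _)) ?_
      intro f hf f' hf' hff
      have h2 := hgc f hf
      have h3 := hgc f' hf'
      have hff' : g f = g f' := hff
      rw [hff', h3] at h2
      by_contra hne
      have h4 : wt (one_off f 0) f' = 0 := by
        have h5 : dot (c f' • ind f') (one_off f 0) = dot (c f • ind f) (one_off f 0) := by
          rw [h2]
        rw [dot_smul, dot_smul, dot_ind, dot_ind, wt_one_off, mul_zero, mul_zero] at h5
        exact (mul_eq_zero.1 h5).resolve_left (hc0 f' hf')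
      have h5 := wt_one_off_pos f (a := 0) (by norm_num) (Ne.symm hne)
      rw [h4] at h5
      exact lt_irrefl _ h5
    rw [card_univ, Fintype.card_fin] at h1
    omega
  refine ⟨f, hf, ?_⟩
  -- projection to the hyperplane of `f`
  set e₀ : Edge n := (0, f.1, f.2.1) with he₀
  have hind : ind f e₀ = 1 := by
    unfold ind On
    simp [he₀]
  set π : Wts n → Wts n := fun y => y - wt y f • Pi.single e₀ 1 with hπ
  have hπw : ∀ y, wt (π y) f = 0 := by
    intro y
    rw [hπ]
    unfold wt
    simp [he₀]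
    ring
  have hdots : ∀ (L : Edge n → ℝ), dot L (Pi.single e₀ 1) = L e₀ := by
    intro L
    unfold dot
    rw [sum_eq_single e₀]
    · simp
    · intro b _ hb
      rw [Pi.single_eq_of_ne hb, mul_zero]
    · intro h
      exact absurd (mem_univ _) h
  have hdotπ : ∀ (L : Edge n → ℝ) (y : Wts n), dot L (π y) = dot (L - L e₀ • ind f) y := by
    intro L y
    rw [dot_sub_left, dot_smul, dot_ind]
    have h1 : π y = y + (-wt y f) • Pi.single e₀ 1 := by
      rw [hπ]
      simp only
      rw [neg_smul, sub_eq_add_neg]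
    rw [h1, dot_add_smul, hdots]
    ring
  have hπc : Continuous π := by
    rw [hπ]
    exact continuous_id.sub ((wt_continuous f).smul continuous_const)
  have hU : IsOpen {y : Wts n | ∀ s, s ≠ f → 0 < wt (π y) s} := by
    have : {y : Wts n | ∀ s, s ≠ f → 0 < wt (π y) s} = ⋂ s, {y | s ≠ f → 0 < wt (π y) s} := by
      ext y
      simp
    rw [this]
    refine isOpen_iInter_of_finite fun s => ?_
    by_cases hs : s = f
    · have : {y : Wts n | s ≠ f → 0 < wt (π y) s} = Set.univ := by
        ext y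
        simp [hs]
      rw [this]
      exact isOpen_univ
    · have : {y : Wts n | s ≠ f → 0 < wt (π y) s} = {y | 0 < wt (π y) s} := by
        ext y
        simp [hs]
      rw [this]
      exact isOpen_lt continuous_const ((wt_continuous s).comp hπc)
  have hy0 : one_off f 0 ∈ {y : Wts n | ∀ s, s ≠ f → 0 < wt (π y) s} := by
    intro s hs
    have : π (one_off f 0) = one_off f 0 := by
      rw [hπ]
      simp only
      rw [wt_one_off, mul_zero, zero_smul, sub_zero]
    rw [this]
    exact wt_one_off_pos f (by norm_num) hs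
  obtain ⟨y, hy, hyL⟩ := exists_generic (fun i => L i - L i e₀ • ind f) hU hy0
  refine ⟨π y, hπw y, hy, fun i hi => ?_, hfL⟩
  rw [hdotπ]
  refine hyL i fun h0 => ?_
  have h1 : L i = L i e₀ • ind f := sub_eq_zero.1 h0
  by_cases h2 : L i e₀ = 0
  · rw [h2, zero_smul] at h1
    exact hi h1
  · exact hfL i _ h2 h1

/-! ### states -/

/-- What is known about the rest `R` of the tree: it is reached from all weights in `U`, where the
signs of the weights of the triangles in `D` are fixed; `r` rounds and `T` tests are left, `q` of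
them with forms which are not multiples of the weight of a triangle. -/
structure St (R : LT n) (T q r : ℕ) (U : Set (Wts n)) (D : Set (Tri n)) : Prop where
  isOpen : IsOpen U
  yes : ∀ u ∈ U, (∀ s, 0 < wt u s) → R.Gen u →
    R.run u = true ∧ R.rounds u ≤ r ∧ R.tests u ≤ T ∧ R.nst u ≤ q
  no : ∀ u ∈ U, ∀ τ, τ ∉ D → wt u τ < 0 → (∀ s, s ≠ τ → 0 < wt u s) → R.Gen u → R.run u = false

theorem wt_const (s : Tri n) : wt (fun _ => (1 : ℝ) : Wts n) s = 3 := by
  unfold wt
  norm_num

theorem eventually_wt_pos {u v : Wts n} (hu : ∀ s, 0 ≤ wt u s) :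
    ∀ᶠ ε in 𝓝[>] (0 : ℝ), ∀ s, (wt u s = 0 → 0 < wt v s) → 0 < wt (u + ε • v) s := by
  refine eventually_all.2 fun s => ?_
  rcases (hu s).eq_or_lt with h | h
  · filter_upwards [self_mem_nhdsWithin] with ε hε h1
    rw [wt_add_smul', ← h, zero_add]
    exact mul_pos hε (h1 h.symm)
  · have h4 := (wt_continuous s).continuousAt.eventually (lt_mem_nhds h)
    filter_upwards [(tendsto_line u v).eventually h4] with ε h1 _
    exact h1

theorem isOpen_pos : IsOpen {u : Wts n | ∀ s : Tri n, 0 < wt u s} := by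
  have : {u : Wts n | ∀ s : Tri n, 0 < wt u s} = ⋂ s, {u | 0 < wt u s} := by
    ext y
    simp
  rw [this]
  exact isOpen_iInter_of_finite fun s => isOpen_lt continuous_const (wt_continuous s)

theorem St.exists_yes {R : LT n} {T q r : ℕ} {U : Set (Wts n)} {D : Set (Tri n)}
    (h : St R T q r U D) {u : Wts n} (hu : u ∈ U) (hu0 : ∀ s, 0 ≤ wt u s) :
    ∃ u' ∈ U, (∀ s, 0 < wt u' s) ∧ R.Gen u' := by
  have h1 : ∀ᶠ ε in 𝓝[>] (0 : ℝ), u + ε • (fun _ => (1 : ℝ) : Wts n) ∈ U :=
    (tendsto_line u _).eventually (h.isOpen.mem_nhds hu)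
  obtain ⟨ε, h2, h3⟩ := (h1.and (eventually_wt_pos (v := fun _ => (1 : ℝ)) hu0)).exists
  obtain ⟨u', hu', h4⟩ := exists_gen R (h.isOpen.inter isOpen_pos)
    ⟨_, h2, fun s => h3 s fun _ => by rw [wt_const]; norm_num⟩
  exact ⟨u', hu'.1, hu'.2, h4⟩

theorem St.bound {m : ℕ} {L : Fin m → Edge n → ℝ} {σ : Fin m → SignType}
    {next : (Fin m → SignType) → LT n} {T q r : ℕ} {U : Set (Wts n)} {D : Set (Tri n)}
    (h : St (.round m L σ next) T q r U D) {u : Wts n} (hu : u ∈ U) (hu0 : ∀ s, 0 ≤ wt u s) :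
    1 ≤ r ∧ m ≤ T ∧ ∀ I : Finset (Fin m), (∀ i ∈ I, NS (L i)) → I.card ≤ q := by
  classical
  obtain ⟨u', hu', h1, h2⟩ := h.exists_yes hu hu0
  have h3 := h.yes u' hu' h1 h2
  unfold LT.rounds LT.tests LT.nst at h3
  refine ⟨by omega, by omega, fun I hI => ?_⟩
  have h4 : I.card ≤ (Finset.univ.filter fun i => NS (L i)).card :=
    card_le_card fun i hi => mem_filter.2 ⟨mem_univ _, hI i hi⟩
  omega

/-- a leaf is wrong somewhere -/
theorem St.leaf {b : Bool} {T q r : ℕ} {U : Set (Wts n)} {D : Set (Tri n)}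
    (h : St (.leaf b) T q r U D) {u : Wts n} (hu : u ∈ U) (hu0 : ∀ s, 0 ≤ wt u s) {f : Tri n}
    (hf : wt u f = 0) (hfD : f ∉ D) : False := by
  obtain ⟨u', hu', h1, h2⟩ := h.exists_yes hu hu0
  have h3 := (h.yes u' hu' h1 h2).1
  set v := one_off f (-1) with hv
  have h4 : ∀ᶠ ε in 𝓝[>] (0 : ℝ), u + ε • v ∈ U :=
    (tendsto_line u _).eventually (h.isOpen.mem_nhds hu)
  obtain ⟨ε, ⟨h5, h6⟩, hε⟩ := ((h4.and (eventually_wt_pos (v := v) hu0)).and
    self_mem_nhdsWithin).exists
  have hε' : 0 < ε := hε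
  have h7 := h.no (u + ε • v) h5 f hfD (by
    rw [wt_add_smul', hf, hv, wt_one_off]
    nlinarith) (fun s hs => h6 s fun _ => wt_one_off_pos f (by norm_num) hs) trivial
  unfold LT.run at h3 h7
  rw [h3] at h7
  exact Bool.noConfusion h7

open Classical in
/-- the outcomes of the tests, if the tests of single triangles have the sign of a positive
triangle -/
noncomputable def fixed {m : ℕ} (L : Fin m → Edge n → ℝ) (σ : Fin m → SignType) (u : Wts n) :
    Fin m → SignType :=
  fun i => if L i = 0 then σ i else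
    if h : ∃ c : ℝ, ∃ s, c ≠ 0 ∧ L i = c • ind s then SignType.sign h.choose
    else SignType.sign (dot (L i) u)

open Classical in
/-- one round -/
theorem St.step {m : ℕ} {L : Fin m → Edge n → ℝ} {σ : Fin m → SignType}
    {next : (Fin m → SignType) → LT n} {T q r : ℕ} {U : Set (Wts n)} {D : Set (Tri n)}
    (h : St (.round m L σ next) T q (r + 1) U D) {u : Wts n} (hu : u ∈ U)
    (hu0 : ∀ s, 0 ≤ wt u s) {v : Wts n} (hv0 : ∀ s, 0 ≤ wt v s)
    (hv : ∀ i, NS (L i) → dot (L i) v ≠ 0) :
    ∃ (a : Fin m → SignType) (U' : Set (Wts n)) (u' : Wts n),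
      St (next a) T q r U' (D ∪ {s | ∃ i, ∃ c : ℝ, c ≠ 0 ∧ L i = c • ind s}) ∧ u' ∈ U' ∧
      (∀ s, 0 ≤ wt u' s) ∧ ∀ s, wt u' s = 0 ↔ wt u s = 0 ∧ wt v s = 0 := by
  have h1 : ∀ᶠ ε in 𝓝[>] (0 : ℝ), u + ε • v ∈ U :=
    (tendsto_line u _).eventually (h.isOpen.mem_nhds hu)
  have h2 : ∀ᶠ ε in 𝓝[>] (0 : ℝ), ∀ i, NS (L i) → dot (L i) (u + ε • v) ≠ 0 := by
    refine eventually_all.2 fun i => ?_
    by_cases hi : NS (L i)
    · filter_upwards [eventually_dot_ne (L i) u v (Or.inr (hv i hi))] with ε h _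
      exact h
    · exact Eventually.of_forall fun ε h => absurd h hi
  obtain ⟨ε, ⟨⟨h3, h4⟩, h5⟩, hε⟩ := (((h1.and h2).and (eventually_wt_pos (v := v) hu0)).and
    self_mem_nhdsWithin).exists
  have hε' : 0 < ε := hε
  set u' := u + ε • v with hu'
  set a : Fin m → SignType := fixed L σ u' with ha
  set L' : Fin m → Edge n → ℝ := fun i => if NS (L i) then L i else 0 with hL'
  set D' : Set (Tri n) := D ∪ {s | ∃ i, ∃ c : ℝ, c ≠ 0 ∧ L i = c • ind s} with hD'
  have hL'NS : ∀ i, L' i ≠ 0 → NS (L i) ∧ L' i = L i := by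
    intro i hi
    by_cases hn : NS (L i)
    · exact ⟨hn, by simp only [hL']; rw [if_pos hn]⟩
    · simp only [hL'] at hi
      rw [if_neg hn] at hi
      exact absurd rfl hi
  -- the outcomes
  have hans : ∀ w : Wts n, w ∈ cell L' σ u' → (∀ s, s ∈ D' → 0 < wt w s) →
      ans L σ w = a := by
    intro w hw hwD
    funext i
    rw [ha]
    unfold ans fixed
    by_cases h0 : L i = 0
    · rw [if_pos h0, if_pos h0]
    · rw [if_neg h0, if_neg h0]
      by_cases hs : ∃ c : ℝ, ∃ s, c ≠ 0 ∧ L i = c • ind s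
      · rw [dif_pos hs]
        obtain ⟨s, hc0, hLs⟩ := hs.choose_spec
        have h6 : 0 < wt w s := hwD s (Or.inr ⟨i, _, hc0, hLs⟩)
        conv_lhs => rw [hLs]
        rw [dot_smul, dot_ind, sign_mul, sign_pos h6, mul_one]
      · rw [dif_neg hs]
        have hn : NS (L i) := by
          refine ⟨h0, fun s c hc => ?_⟩
          by_cases hc0 : c = 0
          · rw [hc0, zero_smul] at hc
            exact h0 hc
          · exact hs ⟨c, s, hc0, hc⟩
        have h6 : L' i = L i := by simp only [hL']; rw [if_pos hn]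
        have h7 := congrFun (ans_cell hw) i
        unfold ans at h7
        rw [h6, if_neg h0, if_neg h0] at h7
        exact h7
  have hgen : ∀ w : Wts n, w ∈ cell L' σ u' → (∀ s, s ∈ D' → 0 < wt w s) →
      ∀ i, L i ≠ 0 → dot (L i) w ≠ 0 := by
    intro w hw hwD i h0
    by_cases hs : ∃ c : ℝ, ∃ s, c ≠ 0 ∧ L i = c • ind s
    · obtain ⟨c, s, hc0, hLs⟩ := hs
      rw [hLs, dot_smul, dot_ind]
      exact mul_ne_zero hc0 (hwD s (Or.inr ⟨i, c, hc0, hLs⟩)).ne'
    · have hn : NS (L i) := by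
        refine ⟨h0, fun s c hc => ?_⟩
        by_cases hc0 : c = 0
        · rw [hc0, zero_smul] at hc
          exact h0 hc
        · exact hs ⟨c, s, hc0, hc⟩
      have h6 : L' i = L i := by simp only [hL']; rw [if_pos hn]
      have h7 := ne_of_cell hw i (by rw [h6]; exact h0)
      rwa [h6] at h7
  refine ⟨a, U ∩ cell L' σ u', u', ⟨h.isOpen.inter (cell_open L' σ u'), ?_, ?_⟩, ⟨h3, ?_⟩, ?_, ?_⟩
  · intro w hw hw0 hG
    have h6 := hans w hw.2 (fun s _ => hw0 s)
    have h7 : (LT.round m L σ next).Gen w := ⟨hgen w hw.2 fun s _ => hw0 s, by rw [h6]; exact hG⟩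
    have h8 := h.yes w hw.1 hw0 h7
    unfold LT.run LT.rounds LT.tests LT.nst at h8
    rw [h6] at h8
    exact ⟨h8.1, by omega, by omega, by omega⟩
  · intro w hw τ hτ hwτ hw0 hG
    have h9 : ∀ s, s ∈ D' → 0 < wt w s := by
      intro s hs
      refine hw0 s ?_
      rintro rfl
      exact hτ hs
    have h6 := hans w hw.2 h9
    have h7 : (LT.round m L σ next).Gen w := ⟨hgen w hw.2 h9, by rw [h6]; exact hG⟩
    have h8 := h.no w hw.1 τ (fun h => hτ (Or.inl h)) hwτ hw0 h7
    unfold LT.run at h8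
    rw [h6] at h8
    exact h8
  · refine mem_cell fun i hi => ?_
    obtain ⟨h6, h7⟩ := hL'NS i hi
    rw [h7]
    exact h4 i h6
  · intro s
    rw [hu', wt_add_smul']
    have := hu0 s
    have := hv0 s
    positivity
  · intro s
    rw [hu', wt_add_smul', add_eq_zero_iff_of_nonneg (hu0 s) (mul_nonneg hε'.le (hv0 s)),
      mul_eq_zero, or_iff_right hε'.ne']

/-! ### the induction -/

/-- the numerical conditions -/
def Cond (T q x : ℕ) : ℕ → ℝ → ℝ → Prop
  | 0, N, _ => 0 < N
  | 1, N, _ => (T : ℝ) < N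
  | k + 2, N, ρ => 64 * (T : ℝ) ≤ N ∧ 1024 * (q : ℝ) * ρ ≤ x ^ 2 * N ∧
      Cond T q x (k + 1) (N / (4 * x)) (4 * ρ / x)

theorem Cond.pos {T q x : ℕ} (hx : 0 < x) : ∀ {k : ℕ} {N ρ : ℝ}, Cond T q x k N ρ → 0 < N
  | 0, _, _, h => h
  | 1, N, _, h => lt_of_le_of_lt (Nat.cast_nonneg T) h
  | k + 2, N, ρ, h => by
    have hx' : (0 : ℝ) < x := by exact_mod_cast hx
    have h1 := Cond.pos hx h.2.2
    by_contra hc
    push Not at hc
    have h2 : N / (4 * x) ≤ 0 := div_nonpos_of_nonpos_of_nonneg hc (by positivity)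
    linarith

theorem main {T q x : ℕ} (hx : 0 < x) : ∀ (r : ℕ) (R : LT n) (U : Set (Wts n))
    (D : Set (Tri n)) (u : Wts n) (F : Finset (Tri n)) (N ρ : ℝ), St R T q r U D → u ∈ U →
    (∀ s, 0 ≤ wt u s) → (∀ s ∈ F, wt u s = 0 ∧ s ∉ D) → 0 < ρ → Cond T q x r N ρ →
    N ≤ F.card → (Q F : ℝ) ≤ ρ * F.card → False := by
  classical
  intro r
  induction r with
  | zero =>
    intro R U D u F N ρ h hu hu0 hF hρ hC hN hQ
    have hFpos : (0 : ℝ) < F.card := lt_of_lt_of_le (Cond.pos hx hC) hN
    obtain ⟨f, hf⟩ := card_pos.1 (by exact_mod_cast hFpos : 0 < F.card)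
    cases R with
    | leaf b => exact h.leaf hu hu0 (hF f hf).1 (hF f hf).2
    | round m L σ next =>
      have := (h.bound hu hu0).1
      omega
  | succ r ih =>
    intro R U D u F N ρ h hu hu0 hF hρ hC hN hQ
    have hFpos : (0 : ℝ) < F.card := lt_of_lt_of_le (Cond.pos hx hC) hN
    cases R with
    | leaf b =>
      obtain ⟨f, hf⟩ := card_pos.1 (by exact_mod_cast hFpos : 0 < F.card)
      exact h.leaf hu hu0 (hF f hf).1 (hF f hf).2
    | round m L σ next =>
      have hm := (h.bound hu hu0).2.1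
      have hLq := (h.bound hu hu0).2.2
      have hm' : (m : ℝ) ≤ T := by exact_mod_cast hm
      cases r with
      | zero =>
        have hC' : (T : ℝ) < N := hC
        have h1 : (m : ℝ) < F.card := by linarith
        obtain ⟨f, hf, v, hv0, hvs, hvL, hfL⟩ := stepB F L (by exact_mod_cast h1)
        have hv : ∀ s, 0 ≤ wt v s := by
          intro s
          by_cases hs : s = f
          · rw [hs, hv0]
          · exact (hvs s hs).le
        obtain ⟨a, U', u', h2, h3, h4, h5⟩ := h.step hu hu0 hv (fun i hi => hvL i hi.1)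
        refine ih (next a) U' _ u' {f} 1 1 h2 h3 h4 ?_ one_pos one_pos (by simp) ?_
        · intro s hs
          rw [mem_singleton] at hs
          subst hs
          refine ⟨(h5 s).2 ⟨(hF s hf).1, hv0⟩, ?_⟩
          rintro (h6 | ⟨i, c, hc, h6⟩)
          · exact (hF s hf).2 h6
          · exact hfL i c hc h6
        · have : Q ({f} : Finset (Tri n)) = 0 := by
            unfold Q
            rw [card_eq_zero, filter_eq_empty_iff]
            intro p hp
            rw [mem_product, mem_singleton, mem_singleton] at hp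
            rw [hp.1, hp.2]
            simp
          rw [this]
          simp
      | succ k =>
        obtain ⟨hC1, hC2, hC3⟩ := hC
        set J : Finset (Tri n) := univ.filter fun s => ∃ i, ∃ c : ℝ, c ≠ 0 ∧ L i = c • ind s
          with hJ
        have hJm : J.card ≤ m := by
          by_contra hc
          push Not at hc
          obtain ⟨f, hf, -, -, -, -, h1⟩ := stepB J L hc
          rw [hJ, mem_filter] at hf
          obtain ⟨-, i, c, hc0, h2⟩ := hf
          exact h1 i c hc0 h2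
        have hT0 : (0 : ℝ) ≤ T := Nat.cast_nonneg T
        -- the number of forms which are not multiples of the weight of a triangle
        set q' := min q m with hq'
        have hq'q : (q' : ℝ) ≤ q := by exact_mod_cast min_le_left q m
        have hLq' : ∀ I : Finset (Fin m), (∀ i ∈ I, NS (L i)) → I.card ≤ q' := by
          intro I hI
          refine le_min (hLq I hI) ?_
          have := card_le_univ I
          rwa [Fintype.card_fin] at this
        obtain ⟨v, hv, hvL, hF'⟩ := stepA F J L hx hLq' (min_le_right q m) hρ hQ hJm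
          (by linarith) (by
          refine le_trans ?_ (hC2.trans ?_)
          · exact mul_le_mul_of_nonneg_right (by linarith) hρ.le
          · exact mul_le_mul_of_nonneg_left hN (by positivity))
        obtain ⟨a, U', u', h2, h3, h4, h5⟩ := h.step hu hu0 hv hvL
        set F' := F.filter fun s => wt v s = 0 ∧ s ∉ J with hF'def
        obtain ⟨h6, h7⟩ := hF' F' (fun s => by rw [hF'def, mem_filter])
        have hx' : (0 : ℝ) < x := by exact_mod_cast hx
        refine ih (next a) U' _ u' F' (N / (4 * x)) (4 * ρ / x) h2 h3 h4 ?_ (by positivity) hC3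
          (le_trans (div_le_div_of_nonneg_right hN (by positivity)) h6) h7
        intro s hs
        rw [hF'def, mem_filter] at hs
        refine ⟨(h5 s).2 ⟨(hF s hs.1).1, hs.2.1⟩, ?_⟩
        rintro (h8 | ⟨i, c, hc, h8⟩)
        · exact (hF s hs.1).2 h8
        · apply hs.2.2
          rw [hJ, mem_filter]
          exact ⟨mem_univ _, i, c, hc, h8⟩

/-! ### numbers -/

theorem cond_of {T q x : ℕ} (hx : 0 < x) : ∀ (j : ℕ) (N ρ : ℝ), 0 ≤ N → 0 < ρ →
    64 * (q : ℝ) * ρ * 16 ^ j ≤ x ^ 2 * N → 16 * (T : ℝ) * (4 * x) ^ j ≤ N →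
    (T : ℝ) * (4 * x) ^ j < N → Cond T q x (j + 1) N ρ := by
  have hx' : (0 : ℝ) < x := by exact_mod_cast hx
  have hx1 : (1 : ℝ) ≤ x := by exact_mod_cast hx
  intro j
  induction j with
  | zero =>
    intro N ρ _ _ _ _ h3
    show (T : ℝ) < N
    simpa using h3
  | succ j ih =>
    intro N ρ hN hρ h1 h2 h3
    have hT0 : (0 : ℝ) ≤ T := Nat.cast_nonneg T
    have hq0 : (0 : ℝ) ≤ q := Nat.cast_nonneg q
    have h16 : (1 : ℝ) ≤ 16 ^ j := one_le_pow₀ (by norm_num)
    have h4x : (1 : ℝ) ≤ (4 * x : ℝ) ^ j := one_le_pow₀ (by linarith)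
    refine ⟨?_, ?_, ih (N / (4 * x)) (4 * ρ / x) (by positivity) (by positivity) ?_ ?_ ?_⟩
    · refine le_trans ?_ h2
      rw [pow_succ]
      have h4 : (4 : ℝ) ≤ (4 * x : ℝ) ^ j * (4 * x) := by nlinarith
      calc 64 * (T : ℝ) = 16 * T * 4 := by ring
        _ ≤ 16 * T * ((4 * x : ℝ) ^ j * (4 * x)) := mul_le_mul_of_nonneg_left h4 (by positivity)
    · refine le_trans ?_ h1
      rw [pow_succ]
      have h4 : (0 : ℝ) ≤ 1024 * q * ρ := by positivity
      calc 1024 * (q : ℝ) * ρ = 1024 * q * ρ * 1 := by ring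
        _ ≤ 1024 * q * ρ * 16 ^ j := mul_le_mul_of_nonneg_left h16 h4
        _ = 64 * q * ρ * (16 ^ j * 16) := by ring
    · have e1 : (x : ℝ) ^ 2 * (N / (4 * x)) = x ^ 2 * N / (4 * x) := by ring
      rw [e1, le_div_iff₀ (by positivity)]
      have e2 : 64 * (q : ℝ) * (4 * ρ / x) * 16 ^ j * (4 * x) = 64 * q * ρ * 16 ^ (j + 1) := by
        field_simp
        ring
      rw [e2]
      exact h1
    · rw [le_div_iff₀ (by positivity)]
      calc 16 * (T : ℝ) * (4 * x) ^ j * (4 * x) = 16 * T * (4 * x) ^ (j + 1) := by ring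
        _ ≤ N := h2
    · rw [lt_div_iff₀ (by positivity)]
      calc (T : ℝ) * (4 * x) ^ j * (4 * x) = T * (4 * x) ^ (j + 1) := by ring
        _ < N := h3

open Classical in
theorem Q_univ : (Q (univ : Finset (Tri n)) : ℝ) ≤ 3 * n * (univ : Finset (Tri n)).card := by
  have h1 : Q (univ : Finset (Tri n)) ≤ (univ : Finset (Tri n × Fin 3 × Fin n)).card := by
    unfold Q
    refine card_le_card_of_surjOn (fun p : Tri n × Fin 3 × Fin n =>
      (p.1, if p.2.1 = 0 then (p.2.2, p.1.2.1, p.1.2.2) else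
        if p.2.1 = 1 then (p.1.1, p.2.2, p.1.2.2) else (p.1.1, p.1.2.1, p.2.2))) ?_
    rintro ⟨⟨i, j, k⟩, ⟨i', j', k'⟩⟩ hp
    rw [mem_coe, mem_filter] at hp
    obtain ⟨-, -, e, h1, h2⟩ := hp
    unfold On at h1 h2
    simp only at h1 h2
    rcases h1 with rfl | rfl | rfl
    · simp only [Prod.mk.injEq, true_and] at h2
      rcases h2 with ⟨rfl, rfl⟩ | h | h
      · exact ⟨((i, j, k), 2, k'), by simp, by simp⟩
      · exact absurd h.1 (by decide)
      · exact absurd h.1 (by decide)
    · simp only [Prod.mk.injEq, true_and] at h2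
      rcases h2 with h | ⟨rfl, rfl⟩ | h
      · exact absurd h.1 (by decide)
      · exact ⟨((i, j, k), 0, i'), by simp, by simp⟩
      · exact absurd h.1 (by decide)
    · simp only [Prod.mk.injEq, true_and] at h2
      rcases h2 with h | h | ⟨rfl, rfl⟩
      · exact absurd h.1 (by decide)
      · exact absurd h.1 (by decide)
      · exact ⟨((i, j, k), 1, j'), by simp, by simp⟩
  have h2 : (univ : Finset (Tri n × Fin 3 × Fin n)).card = (univ : Finset (Tri n)).card * (3 * n) := by
    rw [← univ_product_univ, card_product]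
    congr 1
    rw [card_univ, Fintype.card_prod, Fintype.card_fin, Fintype.card_fin]
  rw [h2] at h1
  have h3 : ((Q (univ : Finset (Tri n)) : ℕ) : ℝ) ≤
      (((univ : Finset (Tri n)).card * (3 * n) : ℕ) : ℝ) := by exact_mod_cast h1
  push_cast at h3
  linarith

end Pool.Agent.H692.FR
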